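import Mathlib
import Pool.Agent.Lib.MP_6489b8_al.Lin
import Pool.Agent.Lib.MP_6489b8_al.Kappa

/-!
# The Kleinfeld function
-/

namespace MP6489b8

section

variable {A : Type*} [NonUnitalNonAssocRing A]

/-- The Kleinfeld function `(ab,c,d) - b (a,c,d) - (b,c,d) a`. -/
def kl (a b c d : A) : A := asr (a * b) c d - b * asr a c d - asr b c d * a

theorem kl_add1 (a a' b c d : A) : kl (a + a') b c d = kl a b c d + kl a' b c d := by
  simp only [kl, add_mul, mul_add, asr_add_left]; abel
theorem kl_add2 (a b b' c d : A) : kl a (b + b') c d = kl a b c d + kl a b' c d := by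
  simp only [kl, add_mul, mul_add, asr_add_left]; abel
theorem kl_add3 (a b c c' d : A) : kl a b (c + c') d = kl a b c d + kl a b c' d := by
  simp only [kl, add_mul, mul_add, asr_add_mid]; abel
theorem kl_add4 (a b c d d' : A) : kl a b c (d + d') = kl a b c d + kl a b c d' := by
  simp only [kl, add_mul, mul_add, asr_add_right]; abel

variable (hA : IsAlt A)
include hA

/-- `(uv,c,d) = u (v,c,d) + (u,c,d) v - ([c,d],u,v)` -/
theorem asr_mul4 (u v c d : A) :
    asr (u * v) c d = u * asr v c d + asr u c d * v - asr (com c d) u v := asr_mul hA u v c d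

theorem kl_self23 (a b d : A) : kl a b b d = 0 := by
  have h : asr (a * b) b d = b * asr a b d := by
    rw [asr_cyc' hA (a * b) b d, asr_mul_right hA d a b, asr_cyc' hA a b d]
  rw [kl, h, asr_self_left hA, zero_mul, sub_self, sub_zero]

theorem kl_self12 (a c d : A) : kl a a c d = 0 := by
  rw [kl, asr_mul4 hA, asr_self_right hA]; abel

theorem kl_self34 (a b c : A) : kl a b c c = 0 := by
  rw [kl, asr_self_right hA, asr_self_right hA, asr_self_right hA]; simp

theorem kl_sw12 (a b c d : A) : kl a b c d = -kl b a c d := by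
  have h := kl_self12 hA (a + b) c d
  rw [kl_add1, kl_add2, kl_add2, kl_self12 hA, kl_self12 hA, zero_add, add_zero] at h
  exact eq_neg_of_add_eq_zero_left h

theorem kl_sw23 (a b c d : A) : kl a b c d = -kl a c b d := by
  have h := kl_self23 hA a (b + c) d
  rw [kl_add2, kl_add3, kl_add3, kl_self23 hA, kl_self23 hA, zero_add, add_zero] at h
  exact eq_neg_of_add_eq_zero_left h

theorem kl_sw34 (a b c d : A) : kl a b c d = -kl a b d c := by
  have h := kl_self34 hA a b (c + d)
  rw [kl_add3, kl_add4, kl_add4, kl_self34 hA, kl_self34 hA, zero_add, add_zero] at h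
  exact eq_neg_of_add_eq_zero_left h

/-- `f(a,b,c,d) = ([a,b],c,d) + ([c,d],a,b)` -/
theorem kl_eq (a b c d : A) : kl a b c d = asr (com a b) c d + asr (com c d) a b := by
  have h := asr_mul4 hA b a c d
  have h2 : asr (com a b) c d = asr (a * b) c d - asr (b * a) c d := by rw [com, asr_sub_left]
  have h3 : asr (com c d) b a = -asr (com c d) a b := asr_sw23 hA _ _ _
  rw [kl, h2, h, h3]; abel

omit hA in
/-- The Teichmueller identity. -/
theorem teich (a b c d : A) :
    asr (a * b) c d - asr a (b * c) d + asr a b (c * d) - a * asr b c d - asr a b c * d = 0 := by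
  simp only [asr, mul_sub, sub_mul]; abel

theorem com_mul_y (u v y : A) : com (u * v) y = com u y * v + u * com v y + 3 • asr u v y := by
  have h := com_mul_left hA u v y
  rw [h]
  abel

end

end MP6489b8
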