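import Mathlib
import Pool.Agent.Lib.MP_6489b8_al.A.Calc

/-!
# Certificates for the rewriting calculus
-/

namespace MP6489b8

namespace AC

/-- Expressions. -/
inductive E
  | v (n : ℕ)
  | m (a b : E)
  | d (a : E)
  | x (a b : E)
  | s (a b c : E)
  | f (a b c e : E)
  | add (a b : E)
  | sub (a b : E)
  | z (k : ℤ) (a : E)

/-- Normal form of an expression. -/
noncomputable def norm (F : Fns) (e : E) : P :=
  @E.rec (fun _ => P) (fun n => one (.v n))
    (fun _ _ a b => bind a (fun t => bind b (fun u => F.mul t u)))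
    (fun _ a => bind a (fun t => F.d t))
    (fun _ _ a b => bind a (fun t => bind b (fun u => F.x t u)))
    (fun _ _ _ a b c => bind a (fun t => bind b (fun u => bind c (fun w => F.asc t u w))))
    (fun _ _ _ _ a b c e => bind a (fun t => bind b (fun u => bind c (fun w =>
      bind e (fun z => sF t u w z)))))
    (fun _ _ a b => app a b)
    (fun _ _ a b => app a (sm (-1) b))
    (fun k _ a => sm k a) e

section Ev

variable {A : Type*} [NonUnitalNonAssocRing A] (ρ : ℕ → A) (y : A)

/-- Value of an expression. -/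
def E.ev : E → A
  | .v n => ρ n
  | .m a b => E.ev a * E.ev b
  | .d a => com (E.ev a) y
  | .x a b => asr (E.ev a) (E.ev b) y
  | .s a b c => asr (E.ev a) (E.ev b) (E.ev c)
  | .f a b c e => kl (E.ev a) (E.ev b) (E.ev c) (E.ev e)
  | .add a b => E.ev a + E.ev b
  | .sub a b => E.ev a - E.ev b
  | .z k a => k • E.ev a

variable {ρ y}

/-- The Kleinfeld function as additive maps. -/
def addF1 (b c d : A) : A →+ A where
  toFun a := kl a b c d
  map_zero' := by simp [kl, asr]
  map_add' a a' := kl_add1 a a' b c d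
def addF2 (a c d : A) : A →+ A where
  toFun b := kl a b c d
  map_zero' := by simp [kl, asr]
  map_add' b b' := kl_add2 a b b' c d
def addF3 (a b d : A) : A →+ A where
  toFun c := kl a b c d
  map_zero' := by simp [kl, asr]
  map_add' c c' := kl_add3 a b c c' d
def addF4 (a b c : A) : A →+ A where
  toFun d := kl a b c d
  map_zero' := by simp [kl, asr]
  map_add' d d' := kl_add4 a b c d d'

theorem ev_norm (hA : IsAlt A) {F : Fns} (h : Sound ρ y F) (e : E) :
    (norm F e).ev ρ y = e.ev ρ y := by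
  induction e with
  | v n => exact ev_one ρ y _
  | m a b iha ihb =>
    change (bind (norm F a) (fun t => bind (norm F b) (fun u => F.mul t u))).ev ρ y = _
    rw [ev_bind ρ y _ _ (addR (b.ev ρ y)), iha]
    · rfl
    · intro t
      rw [ev_bind ρ y _ _ (addL (t.ev ρ y)) (fun u => h.mul _ _), ihb]
      rfl
  | d a iha =>
    change (bind (norm F a) (fun t => F.d t)).ev ρ y = _
    rw [ev_bind ρ y _ _ (addD y) (fun u => h.d _), iha]
    rfl
  | x a b iha ihb =>
    change (bind (norm F a) (fun t => bind (norm F b) (fun u => F.x t u))).ev ρ y = _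
    rw [ev_bind ρ y _ _ (addS (b.ev ρ y) y), iha]
    · rfl
    · intro t
      rw [ev_bind ρ y _ _ (addS2 (t.ev ρ y) y) (fun u => h.x _ _), ihb]
      rfl
  | s a b c iha ihb ihc =>
    change (bind (norm F a) (fun t => bind (norm F b) (fun u => bind (norm F c)
      (fun w => F.asc t u w)))).ev ρ y = _
    rw [ev_bind ρ y _ _ (addS (b.ev ρ y) (c.ev ρ y)), iha]
    · rfl
    · intro t
      rw [ev_bind ρ y _ _ (addS2 (t.ev ρ y) (c.ev ρ y)), ihb]
      · rfl
      · intro u
        rw [ev_bind ρ y _ _ (addS3 (t.ev ρ y) (u.ev ρ y)) (fun u => h.asc _ _ _), ihc]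
        rfl
  | f a b c e iha ihb ihc ihe =>
    change (bind (norm F a) (fun t => bind (norm F b) (fun u => bind (norm F c)
      (fun w => bind (norm F e) (fun z => sF t u w z))))).ev ρ y = _
    rw [ev_bind ρ y _ _ (addF1 (b.ev ρ y) (c.ev ρ y) (e.ev ρ y)), iha]
    · rfl
    · intro t
      rw [ev_bind ρ y _ _ (addF2 (t.ev ρ y) (c.ev ρ y) (e.ev ρ y)), ihb]
      · rfl
      · intro u
        rw [ev_bind ρ y _ _ (addF3 (t.ev ρ y) (u.ev ρ y) (e.ev ρ y)), ihc]
        · rfl
        · intro w
          rw [ev_bind ρ y _ _ (addF4 (t.ev ρ y) (u.ev ρ y) (w.ev ρ y))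
            (fun z => ev_sF hA ρ y _ _ _ _), ihe]
          rfl
  | add a b iha ihb =>
    change (app (norm F a) (norm F b)).ev ρ y = _
    rw [ev_app, iha, ihb]; rfl
  | sub a b iha ihb =>
    change (app (norm F a) (sm (-1) (norm F b))).ev ρ y = _
    rw [ev_app, ev_sm, iha, ihb, neg_smul, one_smul, ← sub_eq_add_neg]; rfl
  | z k a iha =>
    change (sm k (norm F a)).ev ρ y = _
    rw [ev_sm, iha]; rfl

end Ev

/-- `<u,v> = u (v y) - y (u v)`. -/
def E.ang (u v : E) : E := .add (.add (.m u (.d v)) (.m (.d u) v)) (.z 2 (.x u v))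
/-- `<u,v> - <v,u>`. -/
def E.br (u v : E) : E := .sub (.ang u v) (.ang v u)
/-- `X(u,v;c)`. -/
def E.X5 (u v c : E) : E := .sub (.m (.br u c) v) (.m u (.br v c))
/-- Commutator. -/
def E.cm (u v : E) : E := .sub (.m u v) (.m v u)

/-- Instances of identities. -/
inductive I
  | L (a b c : E)
  | R (a b c : E)
  | S (a b c : E)
  | Q (a b c : E)
  | Y (a b : E)
  | A (a b : E)
  | G (a b c : E)
  | H (a b c : E)
  | T (a b c e : E)
  | K (a b c e : E)
  | d (a b : E)
  | x (a b c : E)
  | a (a b c e : E)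
  | P1 (u v w : E)
  | P2 (u v w : E)
  | M1 (u : E)
  | M2 (u : E)
  | M3 (u v : E)
  | M4 (u v : E)
  | ml (t : E) (i : I)
  | mr (i : I) (t : E)
  | D (i : I)
  | X (i : I) (t : E)
  | As (i : I) (t u : E)

/-- The function `(uv,w,y) - v (u,w,y) - (v,w,y) u`. -/
def E.g (u v w : E) : E := .sub (.sub (.x (.m u v) w) (.m v (.x u w))) (.m (.x v w) u)

/-- The expression of an instance. -/
noncomputable def I.toE (i : I) : E :=
  @I.rec (fun _ => E)
    (fun a b c => .add (.s a b c) (.s b a c))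
    (fun a b c => .add (.s a b c) (.s a c b))
    (fun a b c => .sub (.sub (.add (.x (.x a b) c) (.x (.x a c) b)) (.m (.d b) (.x a c)))
      (.m (.d c) (.x a b)))
    (fun a b c => .add (.add (.m (.d b) (.x a c)) (.m (.x a c) (.d b)))
      (.add (.m (.d c) (.x a b)) (.m (.x a b) (.d c))))
    (fun a b => .add (.d (.x a b)) (.x (.d a) b))
    (fun a b => .add (.x a b) (.x b a))
    (fun a b c => .add (.g a b c) (.g b a c))
    (fun a b c => .add (.g a b c) (.g a c b))
    (fun a b c e => .sub (.sub (.add (.sub (.s (.m a b) c e) (.s a (.m b c) e)) (.s a b (.m c e)))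
      (.m a (.s b c e))) (.m (.s a b c) e))
    (fun a b c e => .sub (.sub (.f a b c e) (.s (.cm a b) c e)) (.s (.cm c e) a b))
    (fun a b => .sub (.sub (.sub (.d (.m a b)) (.m (.d a) b)) (.m a (.d b))) (.z 3 (.x a b)))
    (fun a b c => .add (.sub (.sub (.x (.m a b) c) (.m a (.x b c))) (.m (.x a c) b))
      (.s (.d c) a b))
    (fun a b c e => .sub (.sub (.sub (.s (.m a b) c e) (.m b (.s a c e))) (.m (.s b c e) a))
      (.f a b c e))
    (fun u v w => .ang (.x u v) (.d w))
    (fun u v w => .ang (.d w) (.x u v))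
    (fun u => .ang (.v 0) (.d u))
    (fun u => .ang (.d u) (.v 0))
    (fun u v => .sub (.ang (.v 0) (.x u v)) (.ang (.x u v) (.v 0)))
    (fun u v => .X5 (.d v) (.v 0) u)
    (fun t _ ih => .m t ih)
    (fun _ t ih => .m ih t)
    (fun _ ih => .d ih)
    (fun _ t ih => .x ih t)
    (fun _ t u ih => .s ih t u) i

section Ev

variable {A : Type*} [NonUnitalNonAssocRing A]

/-- `<u,v>` -/
def ang (y u v : A) : A := u * com v y + com u y * v + (2 : ℤ) • asr u v y
/-- `{u,v} = <u,v> - <v,u>` -/
def br (y u v : A) : A := ang y u v - ang y v u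
/-- `X(u,v;c)` -/
def X5 (y u v c : A) : A := br y u c * v - u * br y v c

theorem ang_eq (hA : IsAlt A) (y u v : A) : ang y u v = u * (v * y) - y * (u * v) := by
  have h1 : asr u v y = -asr u y v := asr_sw23 hA _ _ _
  have h2 : asr u v y = asr y u v := asr_cyc' hA _ _ _
  rw [ang, two_smul]
  nth_rewrite 1 [h1]
  rw [h2]
  simp only [asr, com, mul_sub, sub_mul]; abel

/-- (I1) -/
theorem ang_com_asr (hA : IsAlt A) (y u v w : A) : ang y (com w y) (asr u v y) = 0 := by
  rw [ang_eq hA, I1_left hA, sub_self]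

/-- (I1) -/
theorem ang_asr_com (hA : IsAlt A) (y u v w : A) : ang y (asr u v y) (com w y) = 0 := by
  rw [ang_eq hA]
  have h1 := I1_right hA y u v w
  have h2 := asr_cyc hA (asr u v y) (com w y) y
  have h3 := asr_cyc hA (com w y) y (asr u v y)
  have h4 : asr (asr u v y) (com w y) y = (asr u v y * com w y) * y - asr u v y * (com w y * y) :=
    rfl
  have h5 : asr y (asr u v y) (com w y) = (y * asr u v y) * com w y - y * (asr u v y * com w y) :=
    rfl
  linear_combination (norm := abel) h1 - h2 - h3 + h4 - h5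

theorem ev_ang (ρ : ℕ → A) (y : A) (u v : E) : (E.ang u v).ev ρ y = ang y (u.ev ρ y) (v.ev ρ y) :=
  rfl
theorem ev_br (ρ : ℕ → A) (y : A) (u v : E) : (E.br u v).ev ρ y = br y (u.ev ρ y) (v.ev ρ y) :=
  rfl
theorem ev_X5 (ρ : ℕ → A) (y : A) (u v c : E) :
    (E.X5 u v c).ev ρ y = X5 y (u.ev ρ y) (v.ev ρ y) (c.ev ρ y) := rfl

/-- The relations satisfied by `p`, up to the factor `N`. -/
structure Rel (N : ℕ) (y p : A) : Prop where
  M1 : ∀ u, N • ang y p (com u y) = 0
  M2 : ∀ u, N • ang y (com u y) p = 0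
  M3 : ∀ u v, N • (ang y p (asr u v y) - ang y (asr u v y) p) = 0
  M4 : ∀ u v, N • X5 y (com v y) p u = 0

theorem com_zero_left (a : A) : com 0 a = 0 := by simp [com]
theorem asr_zero_left (a b : A) : asr 0 a b = 0 := by simp [asr]
theorem com_nsmul_left (n : ℕ) (a b : A) : com (n • a) b = n • com a b := by
  simp only [com, smul_mul_assoc, mul_smul_comm, smul_sub]
theorem asr_nsmul_left (n : ℕ) (a b c : A) : asr (n • a) b c = n • asr a b c := by
  simp only [asr, smul_mul_assoc, smul_sub]

theorem nsmul_zero' (N : ℕ) {a : A} (h : a = 0) : N • a = 0 := by rw [h, smul_zero]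

theorem I.ev_eq_zero (hA : IsAlt A) (ρ : ℕ → A) (y : A) (N : ℕ) (h : Rel N y (ρ 0)) (i : I) :
    N • i.toE.ev ρ y = 0 := by
  induction i with
  | L a b c =>
    change N • (asr _ _ _ + asr _ _ _) = (0 : A)
    rw [asr_sw12 hA, neg_add_cancel, smul_zero]
  | R a b c =>
    change N • (asr _ _ _ + asr _ _ _) = (0 : A)
    rw [asr_sw23 hA, neg_add_cancel, smul_zero]
  | S a b c =>
    apply nsmul_zero'
    change asr (asr _ _ _) _ _ + asr (asr _ _ _) _ _ - com _ _ * asr _ _ _ -
      com _ _ * asr _ _ _ = (0 : A)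
    rw [asr_asr_lin hA]; abel
  | Q a b c =>
    apply nsmul_zero'
    change com _ _ * asr _ _ _ + asr _ _ _ * com _ _ +
      (com _ _ * asr _ _ _ + asr _ _ _ * com _ _) = (0 : A)
    exact jor_lin hA _ _ _ _
  | Y a b =>
    apply nsmul_zero'
    change com (asr (a.ev ρ y) (b.ev ρ y) y) y + asr (com (a.ev ρ y) y) (b.ev ρ y) y = (0 : A)
    rw [asr_sw12 hA (com _ _), asr_com hA, asr_sw12 hA (b.ev ρ y), com_neg_left]; abel
  | A a b =>
    apply nsmul_zero'
    change asr _ _ _ + asr _ _ _ = (0 : A)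
    rw [asr_sw12 hA, neg_add_cancel]
  | G a b c =>
    apply nsmul_zero'
    change kl (a.ev ρ y) (b.ev ρ y) (c.ev ρ y) y + kl (b.ev ρ y) (a.ev ρ y) (c.ev ρ y) y = 0
    rw [kl_sw12 hA, neg_add_cancel]
  | H a b c =>
    apply nsmul_zero'
    change kl (a.ev ρ y) (b.ev ρ y) (c.ev ρ y) y + kl (a.ev ρ y) (c.ev ρ y) (b.ev ρ y) y = 0
    rw [kl_sw23 hA, neg_add_cancel]
  | T a b c e => exact nsmul_zero' N (teich _ _ _ _)
  | K a b c e =>
    apply nsmul_zero'
    change kl _ _ _ _ - asr (com _ _) _ _ - asr (com _ _) _ _ = (0 : A)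
    rw [kl_eq hA]; abel
  | d a b =>
    apply nsmul_zero'
    change com (a.ev ρ y * b.ev ρ y) y - com (a.ev ρ y) y * b.ev ρ y -
      a.ev ρ y * com (b.ev ρ y) y - (3 : ℤ) • asr (a.ev ρ y) (b.ev ρ y) y = 0
    have e : (3 : ℤ) • asr (a.ev ρ y) (b.ev ρ y) y = 3 • asr (a.ev ρ y) (b.ev ρ y) y := by
      rw [← Nat.cast_smul_eq_nsmul ℤ]; rfl
    rw [com_mul_y hA, e]; abel
  | x a b c =>
    apply nsmul_zero'
    change asr (a.ev ρ y * b.ev ρ y) (c.ev ρ y) y - a.ev ρ y * asr (b.ev ρ y) (c.ev ρ y) y -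
      asr (a.ev ρ y) (c.ev ρ y) y * b.ev ρ y + asr (com (c.ev ρ y) y) (a.ev ρ y) (b.ev ρ y) = 0
    rw [asr_mul hA]; abel
  | a a b c e =>
    apply nsmul_zero'
    change asr (a.ev ρ y * b.ev ρ y) (c.ev ρ y) (e.ev ρ y) -
      b.ev ρ y * asr (a.ev ρ y) (c.ev ρ y) (e.ev ρ y) -
      asr (b.ev ρ y) (c.ev ρ y) (e.ev ρ y) * a.ev ρ y - kl _ _ _ _ = 0
    rw [kl, sub_self]
  | P1 u v w => exact nsmul_zero' N (ang_asr_com hA _ _ _ _)
  | P2 u v w => exact nsmul_zero' N (ang_com_asr hA _ _ _ _)
  | M1 u => exact h.M1 _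
  | M2 u => exact h.M2 _
  | M3 u v => exact h.M3 _ _
  | M4 u v => exact h.M4 _ _
  | ml t i ih =>
    change N • (t.ev ρ y * (I.toE i).ev ρ y) = 0
    rw [← mul_smul_comm, ih, mul_zero]
  | mr i t ih =>
    change N • ((I.toE i).ev ρ y * t.ev ρ y) = 0
    rw [← smul_mul_assoc, ih, zero_mul]
  | D i ih =>
    change N • com ((I.toE i).ev ρ y) y = 0
    rw [← com_nsmul_left, ih, com_zero_left]
  | X i t ih =>
    change N • asr ((I.toE i).ev ρ y) _ y = 0
    rw [← asr_nsmul_left, ih, asr_zero_left]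
  | As i t u ih =>
    change N • asr ((I.toE i).ev ρ y) _ _ = 0
    rw [← asr_nsmul_left, ih, asr_zero_left]

end Ev

/-- Add a term in front, unless its coefficient vanishes modulo `n`. -/
noncomputable def cons0 (n : ℕ) (c : ℤ) (t : T) (l : P) : P :=
  @Bool.rec (fun _ => P) (.cons c t l) l (Nat.beq (Nat.mod (Int.natAbs c) n) 0)

/-- Merge two sorted lists. -/
noncomputable def merge (n : ℕ) (p q : P) : P :=
  @P.rec (fun _ => P → P) (fun q => q)
    (fun c t l ih q => @P.rec (fun _ => P) (.cons c t l)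
      (fun c' t' l' ih' =>
        @Bool.rec (fun _ => P)
          (@Bool.rec (fun _ => P) (.cons c' t' ih') (cons0 n (Int.add c c') t (ih l'))
            (teq t t'))
          (.cons c t (ih (.cons c' t' l')))
          (Nat.ble (Nat.succ t.key) t'.key)) q) p q

section Ev

variable {A : Type*} [NonUnitalNonAssocRing A] (ρ : ℕ → A) (y : A)

theorem ev_cons0 (n : ℕ) (hn : ∀ a : A, n • a = 0) (c : ℤ) (t : T) (l : P) :
    (cons0 n c t l).ev ρ y = c • t.ev ρ y + l.ev ρ y := by
  unfold cons0
  cases h : Nat.beq (Nat.mod (Int.natAbs c) n) 0 with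
  | false => rfl
  | true =>
    rw [Cert.smul_eq_zero_of_mod n hn c _ h, zero_add]

theorem merge_cons (n : ℕ) (c : ℤ) (t : T) (l : P) (c' : ℤ) (t' : T) (l' : P) :
    merge n (.cons c t l) (.cons c' t' l') =
    @Bool.rec (fun _ => P)
      (@Bool.rec (fun _ => P) (.cons c' t' (merge n (.cons c t l) l'))
        (cons0 n (Int.add c c') t (merge n l l')) (teq t t'))
      (.cons c t (merge n l (.cons c' t' l')))
      (Nat.ble (Nat.succ t.key) t'.key) := rfl

theorem ev_merge (n : ℕ) (hn : ∀ a : A, n • a = 0) (p q : P) :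
    (merge n p q).ev ρ y = p.ev ρ y + q.ev ρ y := by
  induction p generalizing q with
  | nil => exact (zero_add _).symm
  | cons c t l ih =>
    induction q with
    | nil => exact (add_zero _).symm
    | cons c' t' l' ih' =>
      rw [merge_cons]
      cases Nat.ble (Nat.succ t.key) t'.key with
      | false =>
        cases h : teq t t' with
        | false =>
          change c' • t'.ev ρ y + (merge n (.cons c t l) l').ev ρ y = _
          rw [ih', P.ev, P.ev]; abel
        | true =>
          change (cons0 n (Int.add c c') t (merge n l l')).ev ρ y = _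
          rw [ev_cons0 ρ y n hn, ih, P.ev, P.ev, ← ev_of_teq ρ y h]
          change (c + c') • _ + _ = _
          rw [add_smul]; abel
      | true =>
        change c • t.ev ρ y + (merge n l (.cons c' t' l')).ev ρ y = _
        rw [ih, P.ev, P.ev]; abel

end Ev

/-- Lists of linear combinations. -/
inductive PP
  | nil
  | cons (p : P) (l : PP)

/-- Merge neighbours. -/
noncomputable def mergePairs (n : ℕ) (l : PP) : PP :=
  (@PP.rec (fun _ => PP × (P → PP)) (.nil, fun q => .cons q .nil)
    (fun p _ ih => (ih.2 p, fun q => .cons (merge n q p) ih.1)) l).1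

/-- Value of a list of linear combinations. -/
def PP.ev {A : Type*} [NonUnitalNonAssocRing A] (ρ : ℕ → A) (y : A) : PP → A
  | .nil => 0
  | .cons p l => p.ev ρ y + PP.ev ρ y l

section Ev

variable {A : Type*} [NonUnitalNonAssocRing A] (ρ : ℕ → A) (y : A)

theorem ev_mergePairs (n : ℕ) (hn : ∀ a : A, n • a = 0) (l : PP) :
    (mergePairs n l).ev ρ y = l.ev ρ y := by
  have h : ∀ l : PP, ((@PP.rec (fun _ => PP × (P → PP)) (.nil, fun q => .cons q .nil)
      (fun p _ ih => (ih.2 p, fun q => .cons (merge n q p) ih.1)) l).1).ev ρ y = l.ev ρ y ∧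
      ∀ q, ((@PP.rec (fun _ => PP × (P → PP)) (.nil, fun q => .cons q .nil)
      (fun p _ ih => (ih.2 p, fun q => .cons (merge n q p) ih.1)) l).2 q).ev ρ y =
        q.ev ρ y + l.ev ρ y := by
    intro l
    induction l with
    | nil => exact ⟨rfl, fun q => rfl⟩
    | cons p l ih =>
      refine ⟨?_, ?_⟩
      · rw [PP.ev]; exact ih.2 p
      · intro q
        have := ih.1
        change (merge n q p).ev ρ y + PP.ev ρ y _ = _
        rw [this, ev_merge ρ y n hn, PP.ev, add_assoc]
  exact (h l).1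

end Ev

/-- Merge everything; `k` is the fuel. -/
noncomputable def mergeAll (n k : ℕ) (l : PP) : PP :=
  @Nat.rec (fun _ => PP → PP) (fun l => l)
    (fun _ ih l => @PP.rec (fun _ => PP) .nil
      (fun p l' _ => @PP.rec (fun _ => PP) (.cons p .nil)
        (fun _ _ _ => ih (mergePairs n (.cons p l'))) l') l) k l

/-- Singletons. -/
noncomputable def singles (p : P) : PP :=
  @P.rec (fun _ => PP) .nil (fun c t _ ih => .cons (.cons c t .nil) ih) p

/-- The first list. -/
noncomputable def hd (n : ℕ) (l : PP) : P :=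
  @PP.rec (fun _ => P) .nil (fun p _ ih => merge n p ih) l

section Ev

variable {A : Type*} [NonUnitalNonAssocRing A] (ρ : ℕ → A) (y : A)

theorem ev_mergeAll (n k : ℕ) (hn : ∀ a : A, n • a = 0) (l : PP) :
    (mergeAll n k l).ev ρ y = l.ev ρ y := by
  induction k generalizing l with
  | zero => rfl
  | succ k ih =>
    cases l with
    | nil => rfl
    | cons p l =>
      cases l with
      | nil => rfl
      | cons q l =>
        change (mergeAll n k (mergePairs n (.cons p (.cons q l)))).ev ρ y = _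
        rw [ih, ev_mergePairs ρ y n hn]

theorem ev_singles (p : P) : (singles p).ev ρ y = p.ev ρ y := by
  induction p with
  | nil => rfl
  | cons c t l ih =>
    change (P.cons c t .nil).ev ρ y + (singles l).ev ρ y = _
    rw [ih, P.ev, P.ev, P.ev, add_zero]

theorem ev_hd (n : ℕ) (hn : ∀ a : A, n • a = 0) (l : PP) : (hd n l).ev ρ y = l.ev ρ y := by
  induction l with
  | nil => rfl
  | cons p l ih =>
    change (merge n p (hd n l)).ev ρ y = _
    rw [ev_merge ρ y n hn, ih, PP.ev]

end Ev

/-- Sort a linear combination. -/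
noncomputable def srt (n : ℕ) (p : P) : P := hd n (mergeAll n 20 (singles p))

theorem ev_srt {A : Type*} [NonUnitalNonAssocRing A] (ρ : ℕ → A) (y : A) (n : ℕ)
    (hn : ∀ a : A, n • a = 0) (p : P) : (srt n p).ev ρ y = p.ev ρ y := by
  rw [srt, ev_hd ρ y n hn, ev_mergeAll ρ y n 20 hn, ev_singles]

/-- Certificates. -/
inductive C
  | nil
  | cons (c : ℤ) (i : I) (l : C)

/-- The sorted items. -/
noncomputable def items (n : ℕ) (F : Fns) (l : C) : PP :=
  @C.rec (fun _ => PP) .nil (fun c i _ ih => .cons (srt n (sm c (norm F i.toE))) ih) l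

/-- Are all coefficients divisible by `n`? -/
noncomputable def allZ (n : ℕ) (p : P) : Bool :=
  @P.rec (fun _ => Bool) true (fun c _ _ ih =>
    @Bool.rec (fun _ => Bool) false ih (Nat.beq (Nat.mod (Int.natAbs c) n) 0)) p

theorem ev_allZ {A : Type*} [NonUnitalNonAssocRing A] (ρ : ℕ → A) (y : A) (n : ℕ)
    (hn : ∀ a : A, n • a = 0) (p : P) (h : allZ n p = true) : p.ev ρ y = 0 := by
  induction p with
  | nil => rfl
  | cons c t l ih =>
    cases h2 : Nat.beq (Nat.mod (Int.natAbs c) n) 0 with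
    | false =>
      exfalso
      have h' : @Bool.rec (fun _ => Bool) false (allZ n l)
        (Nat.beq (Nat.mod (Int.natAbs c) n) 0) = true := h
      rw [h2] at h'
      exact absurd h' (by simp)
    | true =>
      have h' : @Bool.rec (fun _ => Bool) false (allZ n l)
        (Nat.beq (Nat.mod (Int.natAbs c) n) 0) = true := h
      rw [h2] at h'
      rw [P.ev, ih h', Cert.smul_eq_zero_of_mod n hn c _ h2, zero_add]

/-- The checker. -/
noncomputable def check (n k : ℕ) (e : E) (cert : C) : Bool :=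
  allZ n (hd n (mergeAll n 20 (.cons (srt n (sm (-1) (norm (fns k) e))) (items n (fns k) cert))))

/-- **Soundness of the checker.** -/
theorem eq_zero_of_check {A : Type*} [NonUnitalNonAssocRing A] (hA : IsAlt A) (n k : ℕ)
    (e : E) (cert : C) (h : check n k e cert = true) (hn : ∀ a : A, n • a = 0)
    (ρ : ℕ → A) (y : A) (N : ℕ) (hr : Rel N y (ρ 0)) : N • e.ev ρ y = 0 := by
  have h1 : (hd n (mergeAll n 20 (.cons (srt n (sm (-1) (norm (fns k) e)))
      (items n (fns k) cert)))).ev ρ y = 0 := by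
    exact ev_allZ ρ y n hn _ h
  have h3 : ∀ l : C, N • (items n (fns k) l).ev ρ y = 0 := by
    intro l
    induction l with
    | nil => exact smul_zero _
    | cons c i l ih =>
      change N • ((srt n (sm c (norm (fns k) i.toE))).ev ρ y + (items n (fns k) l).ev ρ y) = 0
      rw [smul_add, ih, ev_srt ρ y n hn, ev_sm, ev_norm hA (sound_fns hA k), smul_comm,
        I.ev_eq_zero hA ρ y N hr, smul_zero, add_zero]
  rw [ev_hd ρ y n hn, ev_mergeAll ρ y n 20 hn, PP.ev, ev_srt ρ y n hn, ev_sm,
    ev_norm hA (sound_fns hA k), neg_smul, one_smul, neg_add_eq_zero] at h1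
  rw [h1, h3]

/-- Values of the letters. -/
def env {A : Type*} [NonUnitalNonAssocRing A] : List A → ℕ → A
  | [], _ => 0
  | a :: _, 0 => a
  | _ :: l, i + 1 => env l i

end AC

end MP6489b8
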