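import Mathlib
import Pool.Agent.Lib.MP_6489b8_al.A.Check

/-!
# Alternating sums of instances
-/

namespace MP6489b8

namespace AC

/-- Alternating sum over the permutations of the letters 1,...,4. -/
noncomputable def perm4 (c : ℤ) (f : E → E → E → E → I) (l : C) : C :=
  .cons c (f (.v 1) (.v 2) (.v 3) (.v 4)) <|
  .cons (Int.neg c) (f (.v 1) (.v 2) (.v 4) (.v 3)) <|
  .cons (Int.neg c) (f (.v 1) (.v 3) (.v 2) (.v 4)) <|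
  .cons c (f (.v 1) (.v 3) (.v 4) (.v 2)) <|
  .cons c (f (.v 1) (.v 4) (.v 2) (.v 3)) <|
  .cons (Int.neg c) (f (.v 1) (.v 4) (.v 3) (.v 2)) <|
  .cons (Int.neg c) (f (.v 2) (.v 1) (.v 3) (.v 4)) <|
  .cons c (f (.v 2) (.v 1) (.v 4) (.v 3)) <|
  .cons c (f (.v 2) (.v 3) (.v 1) (.v 4)) <|
  .cons (Int.neg c) (f (.v 2) (.v 3) (.v 4) (.v 1)) <|
  .cons (Int.neg c) (f (.v 2) (.v 4) (.v 1) (.v 3)) <|
  .cons c (f (.v 2) (.v 4) (.v 3) (.v 1)) <|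
  .cons c (f (.v 3) (.v 1) (.v 2) (.v 4)) <|
  .cons (Int.neg c) (f (.v 3) (.v 1) (.v 4) (.v 2)) <|
  .cons (Int.neg c) (f (.v 3) (.v 2) (.v 1) (.v 4)) <|
  .cons c (f (.v 3) (.v 2) (.v 4) (.v 1)) <|
  .cons c (f (.v 3) (.v 4) (.v 1) (.v 2)) <|
  .cons (Int.neg c) (f (.v 3) (.v 4) (.v 2) (.v 1)) <|
  .cons (Int.neg c) (f (.v 4) (.v 1) (.v 2) (.v 3)) <|
  .cons c (f (.v 4) (.v 1) (.v 3) (.v 2)) <|
  .cons c (f (.v 4) (.v 2) (.v 1) (.v 3)) <|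
  .cons (Int.neg c) (f (.v 4) (.v 2) (.v 3) (.v 1)) <|
  .cons (Int.neg c) (f (.v 4) (.v 3) (.v 1) (.v 2)) <|
  .cons c (f (.v 4) (.v 3) (.v 2) (.v 1)) <|
  l

/-- Alternating sum over the permutations of the letters 1,...,4. -/
def alt4 (f : E → E → E → E → E) : E :=
  .add (.sub (.sub (.add (.add (.sub (.sub (.add (.add (.sub (.sub (.add (.add (.sub (.sub (.add (.add (.sub (.sub (.add (.add (.sub (.sub (f (.v 1) (.v 2) (.v 3) (.v 4)) (f (.v 1) (.v 2) (.v 4) (.v 3))) (f (.v 1) (.v 3) (.v 2) (.v 4))) (f (.v 1) (.v 3) (.v 4) (.v 2))) (f (.v 1) (.v 4) (.v 2) (.v 3))) (f (.v 1) (.v 4) (.v 3) (.v 2))) (f (.v 2) (.v 1) (.v 3) (.v 4))) (f (.v 2) (.v 1) (.v 4) (.v 3))) (f (.v 2) (.v 3) (.v 1) (.v 4))) (f (.v 2) (.v 3) (.v 4) (.v 1))) (f (.v 2) (.v 4) (.v 1) (.v 3))) (f (.v 2) (.v 4) (.v 3) (.v 1))) (f (.v 3) (.v 1) (.v 2) (.v 4))) (f (.v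 3) (.v 1) (.v 4) (.v 2))) (f (.v 3) (.v 2) (.v 1) (.v 4))) (f (.v 3) (.v 2) (.v 4) (.v 1))) (f (.v 3) (.v 4) (.v 1) (.v 2))) (f (.v 3) (.v 4) (.v 2) (.v 1))) (f (.v 4) (.v 1) (.v 2) (.v 3))) (f (.v 4) (.v 1) (.v 3) (.v 2))) (f (.v 4) (.v 2) (.v 1) (.v 3))) (f (.v 4) (.v 2) (.v 3) (.v 1))) (f (.v 4) (.v 3) (.v 1) (.v 2))) (f (.v 4) (.v 3) (.v 2) (.v 1))

/-- Alternating sum over the permutations of the letters 1, 2. -/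
noncomputable def perm2 (c : ℤ) (f : E → E → I) (l : C) : C :=
  .cons c (f (.v 1) (.v 2)) (.cons (Int.neg c) (f (.v 2) (.v 1)) l)

/-- Alternating sum over the permutations of the letters 1, 2. -/
def alt2 (f : E → E → E) : E := .sub (f (.v 1) (.v 2)) (f (.v 2) (.v 1))


end AC

end MP6489b8
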