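import Mathlib
import Pool.Agent.Lib.MP_6489b8_al.A.Perm

/-!
# Certificate for the identity (S)
-/

namespace MP6489b8

namespace AC

/-- The auxiliary element. -/
def E.xx (b u v : E) : E :=
  .add (.add (.sub (.sub (.sub (.sub (.sub (.d (.m (.m b u) v)) (.x (.m b u) v))
    (.z 2 (.m (.m (.d b) u) v))) (.z 4 (.m (.x b u) v))) (.m (.m b (.d u)) v))
    (.d (.m u (.m b v)))) (.x u (.m b v))) (.m (.d u) (.m b v))

/-- Part of the certificate. -/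
noncomputable def cS_0 (l : C) : C :=
  perm2 (-1) (fun a b => .H a b (.x (.v 3) (.v 4))) <|
  perm2 (-1) (fun a b => .S a (.v 4) (.m b (.v 3))) <|
  perm2 (-1) (fun a b => .G a (.m (.d (.v 3)) b) (.v 4)) <|
  perm2 1 (fun a b => .ml a (.d (.m (.v 4) b) (.d (.v 3)))) <|
  perm2 (-1) (fun a b => .T (.d (.d (.v 4))) (.v 3) a b) <|
  perm2 1 (fun a b => .ml a (.Y (.v 3) (.m b (.v 4)))) <|
  perm2 (-2) (fun a b => .S (.v 3) (.v 4) (.m a b)) <|
  perm2 (-1) (fun a b => .Q a (.v 4) (.m b (.v 3))) <|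
  perm2 (-1) (fun a b => .G (.d (.v 4)) (.m a (.v 3)) b) <|
  perm2 (-1) (fun a b => .H a b (.m (.d (.v 4)) (.v 3))) <|
  perm2 1 (fun a b => .ml (.d (.v 4)) (.H a b (.v 3))) <|
  perm2 1 (fun a b => .ml a (.H (.v 4) b (.d (.v 3)))) <|
  perm2 2 (fun a b => .mr (.S a b (.v 4)) (.v 3)) <|
  perm2 1 (fun a b => .Q (.m a b) (.v 3) (.v 4)) <|
  perm2 (-1) (fun a b => .Q (.v 4) a (.m (.v 3) b)) <|
  perm2 1 (fun a b => .mr (.H (.v 3) a (.d (.v 4))) b) <|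
  perm2 (-1) (fun a b => .S (.v 4) a (.m (.v 3) b)) <|
  perm2 (-1) (fun a b => .S (.m a (.v 3)) b (.v 4)) <|
  perm2 1 (fun a b => .H (.m a (.v 3)) b (.d (.v 4))) <|
  perm2 1 (fun a b => .A (.m (.v 3) a) (.m b (.d (.v 4)))) <|
  perm2 1 (fun a b => .ml a (.S (.v 3) b (.v 4))) <|
  perm2 1 (fun a b => .mr (.Q a b (.v 4)) (.v 3)) <|
  perm2 (-1) (fun a b => .H (.v 3) a (.x b (.v 4))) <|
  l

/-- The certificate (23 items, denominator 1). -/
noncomputable def cS : C :=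
  cS_0 .nil

theorem cS_ok : check 0 30 (.sub (.sub (.add (.m (.br (.v 1) (.v 2)) (.x (.v 3) (.v 4)))
    (.m (.v 1) (.br (.v 2) (.x (.v 3) (.v 4))))) (.m (.v 2) (.br (.v 1) (.x (.v 3) (.v 4)))))
    (.x (.sub (.xx (.v 3) (.v 1) (.v 2)) (.xx (.v 3) (.v 2) (.v 1))) (.v 4))) cS =
    true := by decide +kernel

end AC

end MP6489b8
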