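import Mathlib
import Pool.Agent.Lib.MP_6489b8_al.A.CertS

/-!
# Certificate: the commutator of the auxiliary element with `y`
-/

namespace MP6489b8

namespace AC

/-- The auxiliary expression. -/
def E.aa (p c d : E) : E :=
  .add (.add (.sub (.sub (.sub (.add (.add (.ang (.d c) (.m d p)) (.ang (.m d (.d c)) p))
    (.z 3 (.ang (.x d c) p))) (.d (.ang (.cm c d) p))) (.x (.d c) (.m p d)))
    (.m (.d c) (.x p d))) (.m d (.d (.m (.d c) p)))) (.z 2 (.x d (.m (.d c) p)))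

/-- The certificate (13 items). -/
noncomputable def cT : C :=
  .cons (-1) (.d (.m (.v 4) (.x (.v 1) (.v 2))) (.d (.v 3))) <|
  .cons 4 (.Y (.v 4) (.m (.v 3) (.x (.v 1) (.v 2)))) <|
  .cons 3 (.Y (.v 3) (.m (.v 4) (.x (.v 1) (.v 2)))) <|
  .cons (-6) (.S (.v 4) (.v 3) (.x (.v 1) (.v 2))) <|
  .cons (-3) (.S (.v 3) (.v 4) (.x (.v 1) (.v 2))) <|
  .cons 1 (.H (.d (.v 3)) (.v 4) (.x (.v 1) (.v 2))) <|
  .cons 2 (.H (.x (.v 1) (.v 2)) (.d (.v 4)) (.v 3)) <|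
  .cons (-1) (.P1 (.v 1) (.v 2) (.m (.v 4) (.v 3))) <|
  .cons 2 (.P2 (.v 1) (.v 2) (.m (.v 4) (.v 3))) <|
  .cons 1 (.ml (.v 4) (.P1 (.v 1) (.v 2) (.v 3))) <|
  .cons 1 (.ml (.v 4) (.P2 (.v 1) (.v 2) (.v 3))) <|
  .cons (-1) (.mr (.P2 (.v 1) (.v 2) (.v 4)) (.v 3)) <|
  .cons (-2) (.D (.d (.m (.v 4) (.v 3)) (.x (.v 1) (.v 2)))) .nil

theorem cT_ok : check 0 30 (.add (.sub (.d (E.xx (.v 4) (.x (.v 1) (.v 2)) (.v 3)))
    (.d (E.xx (.v 4) (.v 3) (.x (.v 1) (.v 2))))) (E.aa (.x (.v 1) (.v 2)) (.v 3) (.v 4))) cT =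
    true := by decide +kernel

end AC

end MP6489b8
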