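import Mathlib
import Pool.Agent.Lib.MP_6489b8_al.A.Perm

/-!
# Certificate: `[X(p,(a,b,y);c),c] = 0` in characteristic 3
-/

namespace MP6489b8

namespace AC

/-- Part of the certificate. -/
noncomputable def cK6_0 (l : C) : C :=
  perm2 1 (fun a b => .mr (.T (.v 3) (.d (.v 3)) a b) (.d (.v 0))) <|
  perm2 (-1) (fun a b => .Y (.v 3) (.m (.s a b (.v 3)) (.v 0))) <|
  perm2 (-1) (fun a b => .H (.d a) (.v 3) (.s (.v 0) b (.v 3))) <|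
  perm2 (-1) (fun a b => .H (.v 3) (.v 3) (.s a b (.d (.v 0)))) <|
  perm2 1 (fun a b => .Y (.m (.s a b (.v 3)) (.v 3)) (.v 0)) <|
  perm2 1 (fun a b => .H (.s (.v 0) a b) (.v 3) (.d (.v 3))) <|
  perm2 1 (fun a b => .Q (.v 3) (.v 3) (.s (.v 0) a b)) <|
  perm2 (-1) (fun a b => .T a (.m (.v 0) (.d (.d (.v 3)))) b (.v 3)) <|
  perm2 (-1) (fun a b => .mr (.ml a (.Y (.m (.v 3) b) (.v 0))) (.v 3)) <|
  perm2 (-1) (fun a b => .Q (.m a b) (.v 0) (.m (.v 3) (.v 3))) <|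
  perm2 1 (fun a b => .T (.d (.v 3)) (.m (.d a) (.v 3)) (.v 0) b) <|
  perm2 (-1) (fun a b => .H (.v 0) (.d (.v 3)) (.s a b (.v 3))) <|
  perm2 (-1) (fun a b => .H (.m (.x (.v 0) a) (.v 3)) b (.v 3)) <|
  perm2 (-1) (fun a b => .d (.m (.d (.v 3)) a) (.s (.v 0) b (.v 3))) <|
  perm2 1 (fun a b => .H (.v 3) (.v 0) (.s a b (.d (.v 3)))) <|
  perm2 1 (fun a b => .H (.s (.v 0) a (.d (.v 3))) b (.v 3)) <|
  perm2 1 (fun a b => .Y (.v 3) (.m a (.s (.v 0) b (.v 3)))) <|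
  perm2 1 (fun a b => .mr (.ml (.d (.v 0)) (.H a b (.v 3))) (.v 3)) <|
  perm2 (-1) (fun a b => .H (.v 3) (.s (.v 0) a (.v 3)) (.d b)) <|
  perm2 (-1) (fun a b => .H (.v 3) a (.s (.v 0) (.v 3) (.d b))) <|
  perm2 (-1) (fun a b => .ml a (.Y (.m (.v 0) (.m (.v 3) (.v 3))) b)) <|
  perm2 (-1) (fun a b => .G (.m (.v 3) (.v 3)) (.m a (.v 0)) (.d b)) <|
  perm2 (-1) (fun a b => .H (.s a (.v 3) (.d (.v 3))) (.v 0) b) <|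
  perm2 1 (fun a b => .mr (.H (.v 3) (.v 3) (.x a b)) (.v 0)) <|
  perm2 (-1) (fun a b => .D (.H (.s a b (.v 3)) (.v 0) (.v 3))) <|
  perm2 (-1) (fun a b => .H (.s a (.v 3) (.d b)) (.v 0) (.v 3)) <|
  perm2 (-1) (fun a b => .L (.m a (.d b)) (.m (.v 3) (.d (.v 3))) (.v 0)) <|
  perm2 (-1) (fun a b => .T a (.m (.v 3) (.v 0)) (.d (.d (.v 3))) b) <|
  perm2 (-1) (fun a b => .ml (.d (.v 0)) (.d (.m (.v 3) a) (.m (.v 3) b))) <|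
  perm2 1 (fun a b => .mr (.Y a (.m (.v 0) (.v 3))) (.m (.v 3) b)) <|
  perm2 (-1) (fun a b => .ml (.m (.v 3) (.d a)) (.d (.m (.v 3) (.v 0)) b)) <|
  perm2 1 (fun a b => .H a (.d (.v 0)) (.m (.v 3) (.m b (.v 3)))) <|
  perm2 (-1) (fun a b => .As (.d (.m a (.v 3)) (.v 0)) b (.d (.v 3))) <|
  perm2 1 (fun a b => .ml (.m (.v 0) (.d a)) (.H b (.v 3) (.v 3))) <|
  perm2 1 (fun a b => .T (.m a b) (.d (.v 0)) (.d (.v 3)) (.v 3)) <|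
  perm2 1 (fun a b => .T (.m (.v 3) (.d (.v 3))) a (.v 0) (.d b)) <|
  perm2 1 (fun a b => .a (.m (.v 3) (.d (.v 0))) a b (.d (.v 3))) <|
  perm2 (-1) (fun a b => .a (.m a (.v 3)) (.v 0) b (.d (.d (.v 3)))) <|
  perm2 (-1) (fun a b => .T (.m (.v 0) (.d (.v 3))) (.d a) (.v 3) b) <|
  perm2 (-1) (fun a b => .a (.m (.d (.v 0)) (.v 3)) a b (.d (.v 3))) <|
  perm2 (-1) (fun a b => .ml (.v 0) (.H (.m (.d a) b) (.v 3) (.v 3))) <|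
  perm2 (-1) (fun a b => .X (.mr (.H a (.v 0) b) (.v 3)) (.v 3)) <|
  perm2 1 (fun a b => .H (.m (.v 3) (.v 0)) (.v 3) (.x a b)) <|
  perm2 1 (fun a b => .H (.v 3) (.v 0) (.m (.x a b) (.v 3))) <|
  perm2 1 (fun a b => .ml a (.ml (.m (.v 3) b) (.M2 (.v 3)))) <|
  perm2 1 (fun a b => .ml a (.Y (.m b (.v 0)) (.m (.v 3) (.v 3)))) <|
  perm2 1 (fun a b => .a (.m (.v 0) (.d (.v 3))) a b (.d (.v 3))) <|
  perm2 1 (fun a b => .ml (.v 0) (.H a (.m (.v 3) (.v 3)) (.d b))) <|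
  perm2 (-1) (fun a b => .H a (.m (.v 3) (.v 3)) (.x (.v 0) b)) <|
  perm2 (-1) (fun a b => .S a b (.m (.v 3) (.m (.v 0) (.v 3)))) <|
  perm2 (-1) (fun a b => .mr (.H (.x (.v 0) a) b (.v 3)) (.v 3)) <|
  perm2 (-1) (fun a b => .mr (.H a (.v 3) (.d (.v 0))) (.m (.v 3) b)) <|
  perm2 1 (fun a b => .mr (.Q a (.v 3) (.v 3)) (.m (.v 0) b)) <|
  perm2 (-1) (fun a b => .mr (.d (.m (.v 3) (.d a)) b) (.m (.v 0) (.v 3))) <|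
  perm2 (-1) (fun a b => .ml (.x a (.v 3)) (.d (.m (.v 3) b) (.v 0))) <|
  perm2 (-1) (fun a b => .Q (.v 0) a (.m (.v 3) (.m b (.v 3)))) <|
  perm2 (-1) (fun a b => .mr (.d (.m (.v 3) a) b) (.x (.v 0) (.v 3))) <|
  perm2 (-1) (fun a b => .T a b (.v 0) (.m (.d (.d (.v 3))) (.v 3))) <|
  perm2 (-1) (fun a b => .x (.m (.v 3) a) (.m b (.v 3)) (.d (.v 0))) <|
  perm2 (-1) (fun a b => .ml (.m (.v 3) (.v 3)) (.S a (.v 0) b)) <|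
  l

/-- Part of the certificate. -/
noncomputable def cK6_1 (l : C) : C :=
  perm2 (-1) (fun a b => .H (.v 3) a (.m (.x (.v 0) (.v 3)) b)) <|
  perm2 1 (fun a b => .mr (.S (.v 0) (.v 3) (.v 3)) (.m a b)) <|
  perm2 1 (fun a b => .ml (.v 3) (.H a (.v 0) (.x b (.v 3)))) <|
  perm2 1 (fun a b => .ml (.m a b) (.Q (.v 3) (.v 0) (.v 3))) <|
  perm2 (-1) (fun a b => .ml (.m (.v 3) (.v 0)) (.Y (.m a b) (.v 3))) <|
  perm2 1 (fun a b => .ml (.v 3) (.ml (.d a) (.H (.v 0) b (.v 3)))) <|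
  perm2 (-1) (fun a b => .ml (.m (.v 0) a) (.Q b (.v 3) (.v 3))) <|
  perm2 1 (fun a b => .ml a (.H (.m (.v 3) b) (.v 3) (.d (.v 0)))) <|
  perm2 (-1) (fun a b => .mr (.Y (.m (.v 3) (.m a (.v 3))) b) (.v 0)) <|
  perm2 1 (fun a b => .H (.m (.x a (.v 3)) b) (.v 0) (.v 3)) <|
  perm2 (-1) (fun a b => .ml (.m a (.v 0)) (.Q b (.v 3) (.v 3))) <|
  perm2 1 (fun a b => .ml a (.H b (.v 3) (.x (.v 0) (.v 3)))) <|
  perm2 1 (fun a b => .ml (.m a b) (.S (.v 3) (.v 0) (.v 3))) <|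
  perm2 (-1) (fun a b => .a (.m (.d (.v 3)) a) (.d (.v 0)) b (.v 3)) <|
  perm2 (-1) (fun a b => .mr (.S a (.v 3) (.v 3)) (.m b (.v 0))) <|
  perm2 1 (fun a b => .ml (.v 0) (.G (.v 3) (.m a b) (.d (.v 3)))) <|
  perm2 (-1) (fun a b => .ml (.m (.v 3) (.v 3)) (.H a b (.d (.v 0)))) <|
  perm2 (-1) (fun a b => .T (.v 3) a (.m b (.v 3)) (.d (.d (.v 0)))) <|
  perm2 1 (fun a b => .H (.m (.x a (.v 3)) (.v 0)) b (.v 3)) <|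
  perm2 1 (fun a b => .mr (.H a (.v 3) (.v 3)) (.m (.d (.v 0)) b)) <|
  perm2 (-1) (fun a b => .ml (.m a (.v 0)) (.S b (.v 3) (.v 3))) <|
  perm2 1 (fun a b => .mr (.H (.v 3) (.v 0) (.v 3)) (.m (.d a) b)) <|
  perm2 (-1) (fun a b => .ml (.m (.v 3) (.v 3)) (.Q a (.v 0) b)) <|
  perm2 (-1) (fun a b => .ml (.v 0) (.Q (.v 3) (.v 3) (.m a b))) <|
  perm2 1 (fun a b => .G (.m a (.v 0)) (.m b (.d (.v 3))) (.v 3)) <|
  perm2 1 (fun a b => .ml (.v 3) (.H (.x a (.v 3)) (.v 0) b)) <|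
  perm2 1 (fun a b => .H (.v 3) (.m (.v 3) a) (.x (.v 0) b)) <|
  perm2 (-1) (fun a b => .ml (.m (.d (.v 3)) (.v 0)) (.d (.m a (.v 3)) b)) <|
  perm2 (-1) (fun a b => .ml a (.Q (.m (.v 0) b) (.v 3) (.v 3))) <|
  perm2 1 (fun a b => .mr (.H a b (.v 3)) (.x (.v 0) (.v 3))) <|
  perm2 (-1) (fun a b => .S a (.v 0) (.m (.v 3) (.m b (.v 3)))) <|
  perm2 1 (fun a b => .ml (.v 0) (.S (.m a b) (.v 3) (.v 3))) <|
  perm2 1 (fun a b => .ml a (.H (.m (.d b) (.v 0)) (.v 3) (.v 3))) <|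
  perm2 (-1) (fun a b => .H (.x (.v 0) (.v 3)) a (.m (.v 3) b)) <|
  perm2 (-1) (fun a b => .ml (.v 3) (.T (.d (.v 3)) a (.d b) (.v 0))) <|
  perm2 (-1) (fun a b => .H a (.v 3) (.m (.x (.v 0) (.v 3)) b)) <|
  perm2 1 (fun a b => .mr (.H (.x (.v 0) (.v 3)) a (.v 3)) b) <|
  perm2 (-1) (fun a b => .ml (.m a (.v 0)) (.H (.v 3) (.v 3) (.d b))) <|
  perm2 (-1) (fun a b => .mr (.Y (.m (.v 3) (.m (.v 0) (.v 3))) a) b) <|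
  perm2 1 (fun a b => .ml (.v 3) (.X (.H a (.v 0) b) (.v 3))) <|
  perm2 1 (fun a b => .T (.d (.v 0)) (.m (.v 3) a) b (.d (.v 3))) <|
  perm2 1 (fun a b => .mr (.mr (.H (.v 3) a (.d b)) (.v 3)) (.v 0)) <|
  perm2 (-1) (fun a b => .ml (.v 0) (.d (.m a (.m (.d (.v 3)) b)) (.v 3))) <|
  perm2 1 (fun a b => .ml a (.S (.v 3) (.v 3) (.m b (.v 0)))) <|
  perm2 1 (fun a b => .mr (.Q a (.v 0) (.m (.v 3) (.v 3))) b) <|
  perm2 1 (fun a b => .T a b (.m (.d (.v 0)) (.v 3)) (.d (.v 3))) <|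
  perm2 (-1) (fun a b => .ml a (.S (.m (.v 0) b) (.v 3) (.v 3))) <|
  perm2 (-1) (fun a b => .H (.v 3) (.v 3) (.m (.v 0) (.x a b))) <|
  perm2 (-1) (fun a b => .T (.v 3) (.m (.d (.v 3)) (.d (.v 0))) a b) <|
  perm2 1 (fun a b => .mr (.H (.v 0) a (.x b (.v 3))) (.v 3)) <|
  perm2 (-1) (fun a b => .mr (.D (.d (.m a (.v 3)) b)) (.m (.v 0) (.v 3))) <|
  perm2 (-1) (fun a b => .H (.x a (.v 3)) b (.m (.v 3) (.v 0))) <|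
  perm2 1 (fun a b => .ml a (.A (.m (.v 3) (.v 3)) (.m (.d (.v 0)) b))) <|
  perm2 (-1) (fun a b => .ml a (.A (.m (.v 3) (.v 3)) (.m (.d b) (.v 0)))) <|
  perm2 (-1) (fun a b => .L (.m (.v 0) (.d (.v 3))) (.m a (.d (.v 3))) b) <|
  perm2 1 (fun a b => .mr (.d (.m (.d (.v 3)) a) b) (.m (.v 0) (.v 3))) <|
  perm2 1 (fun a b => .mr (.S (.v 3) (.v 0) a) (.m b (.v 3))) <|
  perm2 1 (fun a b => .ml (.v 0) (.mr (.H (.v 3) a (.d b)) (.v 3))) <|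
  perm2 1 (fun a b => .ml a (.A (.m (.v 3) (.v 0)) (.m (.d b) (.v 3)))) <|
  perm2 1 (fun a b => .ml (.v 0) (.A (.m (.v 3) (.v 3)) (.m (.d a) b))) <|
  l

/-- Part of the certificate. -/
noncomputable def cK6_2 (l : C) : C :=
  perm2 1 (fun a b => .d (.m (.v 3) a) (.m (.v 3) (.m b (.d (.v 0))))) <|
  perm2 1 (fun a b => .x (.m (.v 3) (.d (.v 0))) (.m a (.v 3)) b) <|
  perm2 (-1) (fun a b => .H (.x a (.v 3)) (.v 0) (.m (.v 3) b)) <|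
  perm2 (-1) (fun a b => .mr (.Y (.m a (.v 3)) (.v 3)) (.m b (.v 0))) <|
  perm2 (-1) (fun a b => .H (.v 3) (.v 0) (.m (.x a (.v 3)) b)) <|
  perm2 (-1) (fun a b => .ml (.d (.v 0)) (.H (.m (.v 3) a) b (.v 3))) <|
  perm2 (-1) (fun a b => .mr (.Y (.v 0) (.m (.v 3) a)) (.m b (.v 3))) <|
  perm2 1 (fun a b => .mr (.H (.v 0) a (.v 3)) (.m (.v 3) (.d b))) <|
  perm2 1 (fun a b => .ml (.d a) (.A (.m (.v 3) (.v 3)) (.m b (.v 0)))) <|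
  perm2 (-1) (fun a b => .ml (.d a) (.H (.v 3) (.v 3) (.m b (.v 0)))) <|
  perm2 (-1) (fun a b => .mr (.S a b (.v 3)) (.m (.v 3) (.v 0))) <|
  perm2 1 (fun a b => .ml a (.mr (.Y (.m b (.v 3)) (.v 3)) (.v 0))) <|
  perm2 1 (fun a b => .ml (.m (.v 0) (.d (.v 3))) (.d (.m a (.v 3)) b)) <|
  perm2 (-1) (fun a b => .ml (.d (.v 0)) (.H (.v 3) (.v 3) (.m a b))) <|
  perm2 1 (fun a b => .ml (.d a) (.A (.m (.v 0) (.v 3)) (.m (.v 3) b))) <|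
  perm2 (-1) (fun a b => .ml (.v 3) (.G a (.m b (.v 0)) (.d (.v 3)))) <|
  perm2 1 (fun a b => .ml (.v 3) (.Y a (.m (.v 3) (.m (.v 0) b)))) <|
  perm2 1 (fun a b => .ml (.m (.v 3) (.v 0)) (.Y a (.m (.v 3) b))) <|
  perm2 1 (fun a b => .ml (.v 0) (.S (.v 3) a (.m (.v 3) b))) <|
  perm2 (-1) (fun a b => .ml (.m (.v 3) a) (.Y (.v 0) (.m (.v 3) b))) <|
  perm2 (-1) (fun a b => .ml (.v 0) (.Q (.v 3) a (.m (.v 3) b))) <|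
  perm2 (-1) (fun a b => .L (.m (.d (.v 0)) a) (.m b (.d (.v 3))) (.v 3)) <|
  perm2 (-1) (fun a b => .ml (.d a) (.H b (.v 0) (.m (.v 3) (.v 3)))) <|
  perm2 1 (fun a b => .ml a (.S (.v 0) b (.m (.v 3) (.v 3)))) <|
  perm2 (-1) (fun a b => .ml (.v 0) (.Y a (.m b (.m (.v 3) (.v 3))))) <|
  perm2 1 (fun a b => .mr (.S (.v 0) a (.v 3)) (.m (.v 3) b)) <|
  perm2 (-1) (fun a b => .ml a (.ml (.v 3) (.Y b (.m (.v 0) (.v 3))))) <|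
  perm2 1 (fun a b => .ml (.m (.v 3) (.v 0)) (.S a b (.v 3))) <|
  perm2 1 (fun a b => .mr (.H (.d (.v 0)) a (.v 3)) (.m b (.v 3))) <|
  perm2 (-1) (fun a b => .Q (.v 3) (.v 3) (.m a (.m (.v 0) b))) <|
  perm2 1 (fun a b => .H (.v 0) a (.m (.x b (.v 3)) (.v 3))) <|
  perm2 (-1) (fun a b => .ml (.x (.v 0) (.v 3)) (.d (.m a (.v 3)) b)) <|
  perm2 1 (fun a b => .ml (.m (.v 0) (.v 3)) (.Y (.m a b) (.v 3))) <|
  perm2 1 (fun a b => .mr (.H (.v 3) a (.d b)) (.m (.v 3) (.v 0))) <|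
  perm2 (-1) (fun a b => .T (.d a) (.m (.d b) (.v 0)) (.v 3) (.v 3)) <|
  perm2 (-1) (fun a b => .ml a (.H (.v 3) (.d (.v 0)) (.m b (.v 3)))) <|
  perm2 1 (fun a b => .T (.m (.d (.v 0)) (.v 3)) (.v 3) a (.d b)) <|
  perm2 (-1) (fun a b => .A (.m (.v 0) a) (.m (.v 3) (.x b (.v 3)))) <|
  perm2 (-1) (fun a b => .ml a (.H (.v 3) (.d (.v 0)) (.m (.v 3) b))) <|
  perm2 1 (fun a b => .A (.m a (.v 3)) (.m b (.x (.v 0) (.v 3)))) <|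
  perm2 (-1) (fun a b => .ml (.v 0) (.Y (.m a (.m (.v 3) b)) (.v 3))) <|
  perm2 (-1) (fun a b => .T (.v 0) (.m (.v 3) (.d (.v 3))) (.d a) b) <|
  perm2 (-1) (fun a b => .ml a (.H (.m (.v 0) (.d (.v 3))) b (.v 3))) <|
  perm2 1 (fun a b => .a (.m (.v 0) a) b (.v 3) (.d (.d (.v 3)))) <|
  perm2 (-1) (fun a b => .mr (.Q (.v 3) (.v 3) (.m a b)) (.v 0)) <|
  perm2 (-1) (fun a b => .ml a (.G (.v 3) (.m (.d (.v 3)) (.v 0)) b)) <|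
  perm2 1 (fun a b => .mr (.H (.v 0) a (.d b)) (.m (.v 3) (.v 3))) <|
  perm2 1 (fun a b => .mr (.G (.d (.v 3)) (.m a (.v 0)) b) (.v 3)) <|
  perm2 (-1) (fun a b => .mr (.mr (.Y a (.m (.v 3) b)) (.v 3)) (.v 0)) <|
  perm2 1 (fun a b => .ml a (.H (.m (.d b) (.v 3)) (.v 0) (.v 3))) <|
  perm2 (-1) (fun a b => .mr (.H a (.v 0) (.v 3)) (.m (.d b) (.v 3))) <|
  perm2 1 (fun a b => .mr (.H a (.v 3) (.m b (.v 3))) (.d (.v 0))) <|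
  perm2 1 (fun a b => .ml (.m a b) (.H (.v 0) (.v 3) (.d (.v 3)))) <|
  perm2 1 (fun a b => .ml (.v 0) (.Q (.m a (.v 3)) b (.v 3))) <|
  perm2 (-1) (fun a b => .ml (.v 3) (.H (.v 3) a (.m (.d (.v 0)) b))) <|
  perm2 1 (fun a b => .mr (.G (.v 3) (.m (.d a) (.v 0)) (.v 3)) b) <|
  perm2 (-1) (fun a b => .ml a (.H (.m b (.v 3)) (.v 0) (.d (.v 3)))) <|
  perm2 (-1) (fun a b => .G (.m (.v 3) a) (.m (.d b) (.v 3)) (.v 0)) <|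
  perm2 (-1) (fun a b => .ml (.v 3) (.mr (.Q (.v 0) a (.v 3)) b)) <|
  perm2 (-1) (fun a b => .L (.m (.v 0) (.d (.v 3))) (.m (.v 3) a) (.d b)) <|
  l

/-- Part of the certificate. -/
noncomputable def cK6_3 (l : C) : C :=
  perm2 (-1) (fun a b => .ml (.v 3) (.S (.v 3) a (.m b (.v 0)))) <|
  perm2 1 (fun a b => .ml (.v 3) (.H (.v 0) a (.m b (.d (.v 3))))) <|
  perm2 1 (fun a b => .mr (.H a (.v 0) (.v 3)) (.m (.d (.v 3)) b)) <|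
  perm2 (-1) (fun a b => .ml (.v 0) (.S a (.v 3) (.m b (.v 3)))) <|
  perm2 1 (fun a b => .ml a (.S (.m (.v 3) b) (.v 0) (.v 3))) <|
  perm2 (-1) (fun a b => .mr (.H (.d (.v 3)) (.v 0) a) (.m (.v 3) b)) <|
  perm2 (-1) (fun a b => .ml (.v 0) (.H (.v 3) a (.m b (.d (.v 3))))) <|
  perm2 (-1) (fun a b => .ml (.v 3) (.ml a (.Y (.v 3) (.m b (.v 0))))) <|
  perm2 (-1) (fun a b => .mr (.G (.v 3) (.m a (.d b)) (.v 3)) (.v 0)) <|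
  perm2 (-1) (fun a b => .ml a (.H (.m (.v 3) b) (.v 0) (.d (.v 3)))) <|
  perm2 (-1) (fun a b => .ml a (.mr (.Y (.m (.v 3) (.v 0)) (.v 3)) b)) <|
  perm2 1 (fun a b => .ml (.v 3) (.H (.v 3) a (.m b (.d (.v 0))))) <|
  perm2 (-1) (fun a b => .ml (.v 3) (.S (.v 0) a (.m (.v 3) b))) <|
  perm2 (-1) (fun a b => .ml (.v 0) (.Y (.v 3) (.m a (.m b (.v 3))))) <|
  perm2 (-1) (fun a b => .mr (.mr (.H a (.v 0) (.v 3)) (.v 3)) (.d b)) <|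
  perm2 (-1) (fun a b => .ml (.m (.v 0) (.v 3)) (.H (.d a) b (.v 3))) <|
  perm2 1 (fun a b => .T (.d (.v 3)) (.m a (.v 3)) (.d (.v 0)) b) <|
  perm2 (-1) (fun a b => .ml (.v 3) (.Q a b (.m (.v 0) (.v 3)))) <|
  perm2 (-1) (fun a b => .mr (.H (.m a b) (.v 3) (.d (.v 3))) (.v 0)) <|
  perm2 (-1) (fun a b => .ml (.v 3) (.Q (.v 3) a (.m (.v 0) b))) <|
  perm2 1 (fun a b => .L (.m a (.v 3)) (.m (.d b) (.v 0)) (.d (.v 3))) <|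
  perm2 1 (fun a b => .ml (.d (.v 3)) (.H (.m a b) (.v 0) (.v 3))) <|
  perm2 1 (fun a b => .ml (.m a (.v 3)) (.H (.d b) (.v 0) (.v 3))) <|
  perm2 1 (fun a b => .mr (.ml (.v 3) (.Y (.m a b) (.v 0))) (.v 3)) <|
  perm2 1 (fun a b => .G (.v 3) (.m (.d a) (.m (.v 0) (.v 3))) b) <|
  perm2 (-1) (fun a b => .ml (.d (.v 3)) (.H (.v 3) a (.m b (.v 0)))) <|
  perm2 1 (fun a b => .ml (.d (.v 3)) (.H (.m (.v 3) a) (.v 0) b)) <|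
  perm2 (-1) (fun a b => .mr (.H a (.v 0) (.v 3)) (.m b (.d (.v 3)))) <|
  perm2 (-1) (fun a b => .ml (.v 3) (.H (.d (.v 0)) a (.m b (.v 3)))) <|
  perm2 (-1) (fun a b => .X (.d (.m a b) (.v 0)) (.m (.v 3) (.v 3))) <|
  perm2 (-1) (fun a b => .ml (.v 3) (.S (.v 0) (.v 3) (.m a b))) <|
  perm2 1 (fun a b => .ml (.v 3) (.H (.m (.v 3) (.v 0)) a (.d b))) <|
  perm2 1 (fun a b => .ml (.v 3) (.Q (.v 0) a (.m b (.v 3)))) <|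
  perm2 1 (fun a b => .ml (.v 3) (.H (.d (.v 3)) a (.m (.v 0) b))) <|
  perm2 1 (fun a b => .mr (.A (.m (.v 3) (.v 0)) (.m (.v 3) (.d a))) b) <|
  perm2 (-1) (fun a b => .ml (.m (.v 3) (.v 3)) (.Y a (.m (.v 0) b))) <|
  perm2 (-1) (fun a b => .ml (.v 3) (.H a (.v 0) (.m (.d (.v 3)) b))) <|
  perm2 (-1) (fun a b => .mr (.H (.d (.v 3)) (.v 3) (.m a b)) (.v 0)) <|
  perm2 (-1) (fun a b => .ml (.m (.d a) (.v 3)) (.H b (.v 0) (.v 3))) <|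
  perm2 1 (fun a b => .ml (.v 3) (.Y a (.m (.v 0) (.m b (.v 3))))) <|
  perm2 1 (fun a b => .Q (.m a (.m (.v 3) (.v 3))) (.v 0) b) <|
  perm2 1 (fun a b => .ml (.v 3) (.Y a (.m b (.m (.v 0) (.v 3))))) <|
  perm2 1 (fun a b => .L (.m a (.v 3)) (.m (.d (.d b)) (.v 0)) (.v 3)) <|
  perm2 (-1) (fun a b => .ml (.v 3) (.Y (.m a (.m (.v 3) b)) (.v 0))) <|
  perm2 (-1) (fun a b => .ml (.v 3) (.H (.m (.d a) (.v 3)) (.v 0) b)) <|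
  perm2 (-1) (fun a b => .ml (.v 3) (.mr (.S (.v 0) a (.v 3)) b)) <|
  perm2 (-1) (fun a b => .ml (.v 3) (.d (.m (.v 0) (.m (.d (.v 3)) a)) b)) <|
  perm2 (-1) (fun a b => .T (.m (.v 3) (.d a)) (.v 0) (.d (.v 3)) b) <|
  perm2 1 (fun a b => .ml (.m (.v 3) (.d (.v 0))) (.H a b (.v 3))) <|
  perm2 1 (fun a b => .ml (.v 3) (.H (.d (.v 0)) a (.m (.v 3) b))) <|
  perm2 (-1) (fun a b => .H (.m (.v 3) (.m (.v 0) (.v 3))) a (.d b)) <|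
  perm2 1 (fun a b => .mr (.H (.d (.v 3)) a (.m (.v 3) b)) (.v 0)) <|
  perm2 1 (fun a b => .ml (.d a) (.H (.m (.v 0) b) (.v 3) (.v 3))) <|
  perm2 1 (fun a b => .mr (.G (.v 3) (.m (.d (.v 3)) a) (.v 0)) b) <|
  perm2 (-1) (fun a b => .ml (.d (.v 3)) (.ml a (.H b (.v 0) (.v 3)))) <|
  perm2 1 (fun a b => .ml (.v 3) (.H (.m (.v 3) a) (.v 0) (.d b))) <|
  perm2 1 (fun a b => .ml (.v 3) (.S (.v 3) a (.m (.v 0) b))) <|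
  perm2 (-1) (fun a b => .mr (.D (.H (.m (.v 3) a) b (.v 3))) (.v 0)) <|
  perm2 1 (fun a b => .ml (.v 3) (.H (.d (.v 0)) (.v 3) (.m a b))) <|
  perm2 (-1) (fun a b => .ml (.v 3) (.H (.m a b) (.v 3) (.d (.v 0)))) <|
  l

/-- Part of the certificate. -/
noncomputable def cK6_4 (l : C) : C :=
  perm2 1 (fun a b => .Q (.v 0) a (.m (.v 3) (.m (.v 3) b))) <|
  perm2 1 (fun a b => .ml (.v 3) (.d (.m (.v 0) (.v 3)) (.m a (.d b)))) <|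
  perm2 1 (fun a b => .G (.v 3) (.m (.v 0) (.m a (.v 3))) (.d b)) <|
  perm2 (-1) (fun a b => .ml (.d (.v 3)) (.mr (.H a b (.v 3)) (.v 0))) <|
  perm2 (-1) (fun a b => .mr (.Y (.m (.v 3) (.v 0)) a) (.m (.v 3) b)) <|
  perm2 (-1) (fun a b => .mr (.H (.v 3) a (.m (.d (.v 3)) b)) (.v 0)) <|
  perm2 (-1) (fun a b => .Q a (.v 0) (.m (.v 3) (.m (.v 3) b))) <|
  perm2 1 (fun a b => .ml (.d (.v 3)) (.H (.m a (.v 3)) (.v 0) b)) <|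
  perm2 (-1) (fun a b => .Q (.m (.v 3) (.v 3)) (.v 0) (.m a b)) <|
  perm2 1 (fun a b => .mr (.S (.m (.v 3) (.v 3)) (.v 0) a) b) <|
  perm2 (-1) (fun a b => .T (.m (.v 3) (.d (.d (.v 3)))) (.v 0) a b) <|
  perm2 (-1) (fun a b => .mr (.H (.v 3) (.v 3) (.m (.v 0) a)) (.d b)) <|
  perm2 1 (fun a b => .mr (.ml a (.Y (.m (.v 0) (.v 3)) b)) (.v 3)) <|
  perm2 1 (fun a b => .T (.v 3) (.m a (.v 3)) (.d b) (.d (.v 0))) <|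
  perm2 1 (fun a b => .Q a (.v 0) (.m b (.m (.v 3) (.v 3)))) <|
  perm2 1 (fun a b => .H (.d (.v 0)) a (.m b (.m (.v 3) (.v 3)))) <|
  perm2 (-1) (fun a b => .H (.v 3) (.v 3) (.m a (.m (.v 0) (.d b)))) <|
  perm2 1 (fun a b => .G a (.m (.v 0) (.m b (.d (.v 3)))) (.v 3)) <|
  perm2 (-1) (fun a b => .mr (.S (.m a (.v 0)) (.v 3) (.v 3)) b) <|
  perm2 (-1) (fun a b => .G (.v 0) (.m (.d a) (.m (.v 3) b)) (.v 3)) <|
  perm2 (-1) (fun a b => .S (.m a (.m b (.v 0))) (.v 3) (.v 3)) <|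
  perm2 (-1) (fun a b => .H (.m (.v 0) (.m (.d a) b)) (.v 3) (.v 3)) <|
  perm2 1 (fun a b => .mr (.S (.v 3) a (.m (.v 3) b)) (.v 0)) <|
  perm2 1 (fun a b => .mr (.d (.m a (.v 3)) (.m b (.d (.v 3)))) (.v 0)) <|
  perm2 (-1) (fun a b => .d (.m a (.m (.v 3) (.v 3))) (.m (.d (.v 0)) b)) <|
  perm2 (-1) (fun a b => .D (.mr (.d (.m (.v 3) a) b) (.m (.v 3) (.v 0)))) <|
  perm2 1 (fun a b => .H (.v 3) (.d (.v 0)) (.m a (.m (.v 3) b))) <|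
  perm2 1 (fun a b => .mr (.H (.v 0) a (.m (.d (.v 3)) b)) (.v 3)) <|
  perm2 1 (fun a b => .mr (.D (.d (.m a (.m b (.v 3))) (.v 3))) (.v 0)) <|
  perm2 1 (fun a b => .A (.m (.v 0) (.v 3)) (.m a (.x b (.v 3)))) <|
  perm2 (-1) (fun a b => .T (.d (.v 3)) (.v 0) (.m (.d a) b) (.v 3)) <|
  perm2 (-1) (fun a b => .M1 (.m (.s a b (.v 3)) (.v 3))) <|
  perm2 1 (fun a b => .ml (.v 0) (.D (.H (.v 3) a (.m (.v 3) b)))) <|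
  perm2 (-1) (fun a b => .M1 (.m (.v 3) (.s a b (.v 3)))) <|
  perm2 1 (fun a b => .M2 (.m (.s a b (.v 3)) (.v 3))) <|
  perm2 (-1) (fun a b => .ml (.s a b (.v 3)) (.M2 (.v 3))) <|
  perm2 1 (fun a b => .ml (.v 3) (.M2 (.s a b (.v 3)))) <|
  perm2 (-1) (fun a b => .mr (.M2 (.s a b (.v 3))) (.v 3)) <|
  perm2 (-1) (fun a b => .ml a (.mr (.Y (.v 3) (.m (.v 3) (.v 0))) b)) <|
  perm2 1 (fun a b => .M2 (.m (.v 3) (.s a b (.v 3)))) <|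
  perm2 1 (fun a b => .mr (.M2 a) (.m b (.m (.v 3) (.v 3)))) <|
  perm2 1 (fun a b => .ml a (.ml (.v 3) (.Q (.v 3) (.v 0) b))) <|
  perm2 1 (fun a b => .ml (.v 3) (.ml (.v 0) (.H (.d a) b (.v 3)))) <|
  perm2 (-1) (fun a b => .T (.m a (.v 3)) b (.v 3) (.d (.d (.v 0)))) <|
  perm2 (-1) (fun a b => .mr (.H (.v 3) a (.d (.v 3))) (.m (.v 0) b)) <|
  perm2 (-1) (fun a b => .As (.M2 a) (.v 3) (.m (.v 3) b)) <|
  perm2 (-1) (fun a b => .mr (.mr (.mr (.M2 a) b) (.v 3)) (.v 3)) <|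
  perm2 (-1) (fun a b => .As (.M1 a) (.v 3) (.m b (.v 3))) <|
  perm2 1 (fun a b => .mr (.H a (.v 3) (.d (.v 3))) (.m b (.v 0))) <|
  perm2 1 (fun a b => .H (.m (.x a (.v 3)) (.v 3)) (.v 0) b) <|
  perm2 1 (fun a b => .ml (.m a (.d (.v 0))) (.H b (.v 3) (.v 3))) <|
  perm2 1 (fun a b => .ml (.v 0) (.D (.H (.v 3) a (.m b (.v 3))))) <|
  perm2 1 (fun a b => .ml a (.ml (.v 3) (.ml b (.M1 (.v 3))))) <|
  perm2 (-1) (fun a b => .ml (.m a (.m (.v 3) b)) (.M1 (.v 3))) <|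
  perm2 1 (fun a b => .T (.v 3) a (.v 0) (.m (.v 3) (.d (.d b)))) <|
  perm2 (-1) (fun a b => .ml (.m a (.v 3)) (.ml b (.M2 (.v 3)))) <|
  perm2 (-1) (fun a b => .a (.m (.v 0) a) (.d b) (.v 3) (.d (.v 3))) <|
  perm2 1 (fun a b => .ml (.v 3) (.As (.M2 (.v 3)) a b)) <|
  perm2 (-1) (fun a b => .x (.m (.d (.v 3)) a) (.m (.v 0) b) (.v 3)) <|
  perm2 1 (fun a b => .H a (.v 0) (.m (.x b (.v 3)) (.v 3))) <|
  l

/-- Part of the certificate. -/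
noncomputable def cK6_5 (l : C) : C :=
  perm2 1 (fun a b => .ml a (.Y (.m (.v 0) b) (.m (.v 3) (.v 3)))) <|
  perm2 (-1) (fun a b => .mr (.As (.M1 (.v 3)) a (.v 3)) b) <|
  perm2 1 (fun a b => .ml (.v 3) (.d (.m a (.m (.d (.v 3)) b)) (.v 0))) <|
  perm2 1 (fun a b => .M4 (.s a b (.v 3)) (.v 3)) <|
  perm2 1 (fun a b => .T (.v 0) (.m (.v 3) (.v 3)) (.d a) (.d b)) <|
  perm2 (-1) (fun a b => .A (.m (.v 3) a) (.m (.x b (.v 3)) (.v 0))) <|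
  perm2 (-1) (fun a b => .H (.x (.v 0) a) (.v 3) (.m (.v 3) b)) <|
  perm2 1 (fun a b => .ml (.m (.v 3) a) (.H b (.v 3) (.d (.v 0)))) <|
  perm2 1 (fun a b => .D (.ml (.v 0) (.d (.m a b) (.m (.v 3) (.v 3))))) <|
  perm2 1 (fun a b => .mr (.d (.m a (.m (.v 3) (.d (.v 3)))) b) (.v 0)) <|
  perm2 1 (fun a b => .a (.m (.d a) (.v 3)) (.v 0) b (.d (.v 3))) <|
  perm2 1 (fun a b => .ml (.v 0) (.G (.v 3) (.m (.d (.v 3)) a) b)) <|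
  l

/-- The certificate (312 items, denominator 1). -/
noncomputable def cK6 : C :=
  cK6_0 <|
  cK6_1 <|
  cK6_2 <|
  cK6_3 <|
  cK6_4 <|
  cK6_5 .nil

theorem cK6_ok : check 3 30 (alt2 fun a b => .cm (.X5 (.v 0) (.x a b) (.v 3)) (.v 3)) cK6 =
    true := by decide +kernel

end AC

end MP6489b8
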