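import Mathlib
import Pool.Agent.Lib.MP_6489b8_al.A.Perm

/-!
# Certificates for the relations of `p = (a,b,y)`
-/

namespace MP6489b8

namespace AC

/-- Part of the certificate. -/
noncomputable def cM3_0 (l : C) : C :=
  .cons 2 (.S (.v 1) (.v 2) (.x (.v 3) (.v 4))) <|
  .cons (-1) (.Q (.v 3) (.v 4) (.x (.v 1) (.v 2))) <|
  .cons (-2) (.S (.v 3) (.v 4) (.x (.v 1) (.v 2))) <|
  .cons 1 (.Q (.v 1) (.v 2) (.x (.v 3) (.v 4))) <|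
  .cons 1 (.Y (.v 4) (.m (.v 3) (.x (.v 1) (.v 2)))) <|
  .cons (-1) (.S (.x (.v 1) (.v 3)) (.v 2) (.v 4)) <|
  .cons (-1) (.Y (.m (.v 1) (.x (.v 3) (.v 4))) (.v 2)) <|
  .cons 1 (.H (.v 3) (.x (.v 1) (.v 2)) (.d (.v 4))) <|
  .cons (-1) (.H (.v 1) (.x (.v 3) (.v 4)) (.d (.v 2))) <|
  .cons (-1) (.Y (.v 2) (.m (.v 1) (.x (.v 3) (.v 4)))) <|
  .cons 1 (.Y (.m (.v 3) (.x (.v 1) (.v 2))) (.v 4)) <|
  .cons 1 (.X (.S (.v 1) (.v 2) (.v 3)) (.v 4)) <|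
  .cons (-1) (.X (.S (.v 3) (.v 1) (.v 4)) (.v 2)) <|
  l

/-- The certificate (13 items, denominator 1). -/
noncomputable def cM3 : C :=
  cM3_0 .nil

theorem cM3_ok : check 0 30 (.sub (.ang (.x (.v 1) (.v 2)) (.x (.v 3) (.v 4)))
    (.ang (.x (.v 3) (.v 4)) (.x (.v 1) (.v 2)))) cM3 = true := by decide +kernel

/-- Part of the certificate. -/
noncomputable def cM4_0 (l : C) : C :=
  perm2 1 (fun a b => .ml (.d (.v 4)) (.Y a (.m (.v 3) b))) <|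
  perm2 1 (fun a b => .ml a (.S b (.v 3) (.d (.v 4)))) <|
  perm2 1 (fun a b => .mr (.S (.d a) b (.v 4)) (.v 3)) <|
  perm2 2 (fun a b => .X (.Y (.m (.v 3) a) b) (.v 4)) <|
  perm2 (-1) (fun a b => .ml (.d (.v 3)) (.Q a b (.v 4))) <|
  perm2 (-1) (fun a b => .S (.d (.v 4)) a (.m b (.v 3))) <|
  perm2 2 (fun a b => .Y (.m a (.x b (.v 3))) (.v 4)) <|
  perm2 1 (fun a b => .ml (.v 3) (.Q (.d a) b (.v 4))) <|
  perm2 (-2) (fun a b => .S (.m (.v 3) (.d a)) b (.v 4)) <|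
  perm2 (-1) (fun a b => .ml (.d (.v 4)) (.S a b (.v 3))) <|
  perm2 1 (fun a b => .S a b (.m (.v 3) (.d (.v 4)))) <|
  perm2 1 (fun a b => .S (.v 4) a (.m (.d (.v 3)) b)) <|
  perm2 1 (fun a b => .ml (.v 3) (.S (.d a) b (.v 4))) <|
  perm2 1 (fun a b => .mr (.H a (.v 3) (.d b)) (.d (.v 4))) <|
  perm2 (-2) (fun a b => .mr (.S a b (.v 3)) (.d (.v 4))) <|
  perm2 (-1) (fun a b => .S a b (.m (.d (.v 4)) (.v 3))) <|
  perm2 1 (fun a b => .mr (.S a b (.v 4)) (.d (.v 3))) <|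
  perm2 (-1) (fun a b => .ml (.d (.v 3)) (.S a b (.v 4))) <|
  perm2 (-1) (fun a b => .Q (.m (.d a) (.v 3)) b (.v 4)) <|
  perm2 (-1) (fun a b => .Q (.v 3) (.v 4) (.x a b)) <|
  perm2 (-1) (fun a b => .S (.d (.v 4)) a (.m (.v 3) b)) <|
  perm2 1 (fun a b => .mr (.P1 a (.v 4) (.v 3)) b) <|
  perm2 (-1) (fun a b => .ml (.d (.v 4)) (.d (.m a (.v 3)) (.d b))) <|
  perm2 1 (fun a b => .Q (.d a) (.v 4) (.m (.v 3) b)) <|
  perm2 1 (fun a b => .H a (.d (.v 4)) (.x b (.v 3))) <|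
  perm2 (-2) (fun a b => .mr (.S (.v 3) a (.v 4)) (.d b)) <|
  perm2 (-1) (fun a b => .Q (.m (.v 3) (.d a)) b (.v 4)) <|
  perm2 1 (fun a b => .ml (.d a) (.Q (.v 4) b (.v 3))) <|
  perm2 (-1) (fun a b => .Q a (.v 4) (.m (.d (.v 3)) b)) <|
  perm2 (-2) (fun a b => .X (.Y a (.m (.v 3) b)) (.v 4)) <|
  perm2 1 (fun a b => .Q (.v 4) (.v 3) (.x a b)) <|
  perm2 (-1) (fun a b => .S (.v 3) a (.m b (.d (.v 4)))) <|
  perm2 (-2) (fun a b => .X (.H a (.v 3) (.d b)) (.v 4)) <|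
  perm2 (-1) (fun a b => .mr (.Q (.v 4) a (.v 3)) (.d b)) <|
  perm2 2 (fun a b => .Y (.v 4) (.m a (.x b (.v 3)))) <|
  perm2 (-1) (fun a b => .H a (.d (.v 3)) (.x b (.v 4))) <|
  l

/-- The certificate (36 items, denominator 1). -/
noncomputable def cM4 : C :=
  cM4_0 .nil

theorem cM4_ok : check 0 30 (alt2 fun a b => .X5 (.d (.v 4)) (.x a b) (.v 3)) cM4 =
    true := by decide +kernel

end AC

end MP6489b8
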