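import Mathlib
import Pool.Agent.Lib.MP_6489b8_al.A.Perm

/-!
# Certificates for the skewness of `X`
-/

namespace MP6489b8

namespace AC

/-- Part of the certificate. -/
noncomputable def cXA1_0 (l : C) : C :=
  .cons (-1) (.H (.v 2) (.v 1) (.m (.d (.v 2)) (.v 3))) <|
  .cons 1 (.H (.v 2) (.v 1) (.x (.v 3) (.v 2))) <|
  .cons 1 (.S (.m (.v 2) (.v 2)) (.v 3) (.v 1)) <|
  .cons 3 (.ml (.v 3) (.S (.v 2) (.v 1) (.v 2))) <|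
  .cons 1 (.G (.v 2) (.m (.d (.v 1)) (.v 3)) (.v 2)) <|
  .cons 1 (.mr (.Q (.v 2) (.v 1) (.v 2)) (.v 3)) <|
  .cons 1 (.ml (.v 3) (.Q (.v 2) (.v 1) (.v 2))) <|
  .cons (-1) (.T (.v 2) (.d (.v 2)) (.d (.v 1)) (.v 3)) <|
  .cons 1 (.ml (.v 1) (.S (.v 2) (.v 3) (.v 2))) <|
  .cons (-1) (.mr (.S (.v 2) (.v 3) (.v 2)) (.v 1)) <|
  .cons (-1) (.ml (.v 3) (.H (.v 2) (.v 2) (.d (.v 1)))) <|
  .cons 1 (.S (.m (.v 3) (.v 2)) (.v 1) (.v 2)) <|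
  .cons 1 (.mr (.S (.v 1) (.v 3) (.v 2)) (.v 2)) <|
  .cons 1 (.mr (.S (.v 2) (.v 1) (.v 2)) (.v 3)) <|
  .cons (-1) (.S (.v 2) (.v 1) (.m (.v 2) (.v 3))) <|
  l

/-- The certificate (15 items, denominator 1). -/
noncomputable def cXA1 : C :=
  cXA1_0 .nil

theorem cXA1_ok : check 0 30 (.sub (.X5 (.v 3) (.x (.v 1) (.v 2)) (.v 2))
    (.s (.ang (.d (.v 2)) (.v 3)) (.v 1) (.v 2))) cXA1 = true := by
  decide +kernel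

/-- Part of the certificate. -/
noncomputable def cXA2_0 (l : C) : C :=
  .cons 1 (.mr (.S (.v 1) (.v 2) (.v 2)) (.v 3)) <|
  .cons 1 (.Q (.v 1) (.v 2) (.m (.v 2) (.v 3))) <|
  .cons 3 (.H (.x (.v 1) (.v 2)) (.v 3) (.v 2)) <|
  .cons (-1) (.ml (.d (.v 2)) (.H (.v 3) (.v 1) (.v 2))) <|
  .cons 1 (.ml (.v 1) (.Q (.v 2) (.v 3) (.v 2))) <|
  .cons (-1) (.ml (.v 3) (.S (.v 2) (.v 1) (.v 2))) <|
  .cons 1 (.H (.x (.v 3) (.v 1)) (.v 2) (.v 2)) <|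
  .cons (-1) (.S (.v 2) (.v 2) (.m (.v 1) (.v 3))) <|
  .cons (-1) (.T (.v 2) (.d (.v 2)) (.d (.v 1)) (.v 3)) <|
  .cons 1 (.H (.v 2) (.v 1) (.x (.v 3) (.v 2))) <|
  .cons 1 (.ml (.v 1) (.S (.v 2) (.v 3) (.v 2))) <|
  .cons 1 (.G (.v 2) (.m (.d (.v 1)) (.v 3)) (.v 2)) <|
  .cons (-1) (.Y (.v 1) (.m (.v 2) (.m (.v 3) (.v 2)))) <|
  .cons 1 (.X (.H (.v 3) (.v 1) (.v 2)) (.v 2)) <|
  .cons 2 (.H (.v 2) (.v 3) (.x (.v 1) (.v 2))) <|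
  .cons 1 (.H (.v 2) (.v 1) (.m (.v 3) (.d (.v 2)))) <|
  .cons 1 (.mr (.H (.v 2) (.v 2) (.d (.v 1))) (.v 3)) <|
  .cons (-1) (.mr (.Q (.v 2) (.v 3) (.v 2)) (.v 1)) <|
  .cons (-1) (.mr (.Q (.v 2) (.v 1) (.v 2)) (.v 3)) <|
  l

/-- The certificate (19 items, denominator 1). -/
noncomputable def cXA2 : C :=
  cXA2_0 .nil

theorem cXA2_ok : check 0 30 (.add (.X5 (.x (.v 1) (.v 2)) (.v 3) (.v 2))
    (.s (.ang (.v 3) (.d (.v 2))) (.v 1) (.v 2))) cXA2 = true := by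
  decide +kernel

end AC

end MP6489b8
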