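import Mathlib
import Pool.Agent.Lib.MP_6489b8_al.A.CertRel
import Pool.Agent.Lib.MP_6489b8_al.A.CertS
import Pool.Agent.Lib.MP_6489b8_al.A.CertSk

/-!
# The relations of `p = (a,b,y)` and the identities for `X`
-/

namespace MP6489b8

variable {A : Type*} [NonUnitalNonAssocRing A]

theorem X5_neg_mid (y p q c : A) : AC.X5 y p (-q) c = -AC.X5 y p q c := by
  simp only [AC.X5, AC.br, AC.ang, com, asr, mul_neg, neg_mul, sub_mul, mul_sub, add_mul,
    mul_add, smul_neg, smul_sub]
  abel

theorem rel_zero (N : ℕ) (y : A) : AC.Rel N y (0 : A) := by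
  constructor <;> intros <;> simp [AC.X5, AC.br, AC.ang, com, asr]

variable (hA : IsAlt A)
include hA

/-- **The relations of `p = (a,b,y)`**, up to the factor `2`. -/
theorem rel_asr (y a b : A) : AC.Rel 2 y (asr a b y) := by
  refine ⟨fun u => ?_, fun u => ?_, fun u v => ?_, fun u v => ?_⟩
  · rw [AC.ang_asr_com hA, smul_zero]
  · rw [AC.ang_com_asr hA, smul_zero]
  · have h := AC.eq_zero_of_check hA 0 30 _ _ AC.cM3_ok (fun a => zero_smul _ a)
      (env [0, a, b, u, v]) y 1 (rel_zero 1 y)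
    rw [one_smul] at h
    have h2 : AC.ang y (asr a b y) (asr u v y) - AC.ang y (asr u v y) (asr a b y) = 0 := h
    rw [h2, smul_zero]
  · have h := AC.eq_zero_of_check hA 0 30 _ _ AC.cM4_ok (fun a => zero_smul _ a)
      (env [0, a, b, u, v]) y 1 (rel_zero 1 y)
    rw [one_smul] at h
    have h2 : AC.X5 y (com v y) (asr a b y) u - AC.X5 y (com v y) (asr b a y) u = 0 := h
    rw [asr_sw12 hA b a y, X5_neg_mid, sub_neg_eq_add] at h2
    rw [two_nsmul]
    exact h2

/-- `X(p,(a,b,y);b) = (<[b,y],p>,a,b)`. -/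
theorem X5_skew1 (y p a b : A) :
    AC.X5 y p (asr a b y) b = asr (AC.ang y (com b y) p) a b := by
  have h := AC.eq_zero_of_check hA 0 30 _ _ AC.cXA1_ok (fun a => zero_smul _ a)
    (env [0, a, b, p]) y 1 (rel_zero 1 y)
  rw [one_smul] at h
  exact sub_eq_zero.1 h

/-- `X((a,b,y),p;b) = -(<p,[b,y]>,a,b)`. -/
theorem X5_skew2 (y p a b : A) :
    AC.X5 y (asr a b y) p b = -asr (AC.ang y p (com b y)) a b := by
  have h := AC.eq_zero_of_check hA 0 30 _ _ AC.cXA2_ok (fun a => zero_smul _ a)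
    (env [0, a, b, p]) y 1 (rel_zero 1 y)
  rw [one_smul] at h
  exact eq_neg_of_add_eq_zero_left h

omit hA in
/-- The element `x(u,v)`. -/
def xx (y b u v : A) : A :=
  com ((b * u) * v) y - asr (b * u) v y - (2 : ℤ) • ((com b y * u) * v) -
    (4 : ℤ) • (asr b u y * v) - (b * com u y) * v - com (u * (b * v)) y + asr u (b * v) y +
    com u y * (b * v)

/-- **Identity (S)**. -/
theorem S_id (y u v b c : A) :
    AC.br y u v * asr b c y + u * AC.br y v (asr b c y) - v * AC.br y u (asr b c y) =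
      asr (xx y b u v - xx y b v u) c y := by
  have h := AC.eq_zero_of_check hA 0 30 _ _ AC.cS_ok (fun a => zero_smul _ a)
    (env [0, u, v, b, c]) y 1 (rel_zero 1 y)
  rw [one_smul] at h
  exact sub_eq_zero.1 h

end MP6489b8
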