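import Mathlib
import Pool.Agent.Lib.MP_6489b8_al.A.CertK6
import Pool.Agent.Lib.MP_6489b8_al.S.CertV4
import Pool.Agent.Lib.MP_6489b8_al.A.Brk
import Pool.Agent.Lib.MP_6489b8_al.A.Rel

/-!
# Commutators of the alternating derivation of order five
-/

namespace MP6489b8

universe u

open Function Equiv

/-- The function of order five. -/
def TX (B : Type u) [NonUnitalNonAssocRing B] (x : Fin 5 → B) (y : B) : B :=
  AC.X5 y (asr (x 0) (x 1) y) (asr (x 2) (x 3) y) (x 4)

section

variable {A : Type u} [NonUnitalNonAssocRing A]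

/-- The alternating sum. -/
theorem V4_sum (hA : IsAlt A) (y p : A) (N : ℕ) (hr : AC.Rel N y p) (G : A → A → A → A → A)
    (hG : ∀ a b c d, G a b c d = com (AC.X5 y p (asr a b y) c) d) (a b c d : A) :
    N • ((216 : ℤ) • (G a b c d - G a b d c - G a c b d + G a c d b + G a d b c - G a d c b -
      G b a c d + G b a d c + G b c a d - G b c d a - G b d a c + G b d c a + G c a b d -
      G c a d b - G c b a d + G c b d a + G c d a b - G c d b a - G d a b c + G d a c b +
      G d b a c - G d b c a - G d c a b + G d c b a)) = 0 := by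
  have h := AS.eq_zero_of_checkA hA 0 30 _ _ AS.cV4_ok (fun a => zero_smul _ a)
    (AC.env [p, a, b, c, d]) y N hr
  have e : (AS.A4 fun a' b' c' d' => (AC.E.z 216 (.cm (.X5 (.v 0) (.x (.v 1) (.v 2)) (.v 3))
      (.v 4))).ev (fun n => AC.env [p, a, b, c, d] (AS.sel a' b' c' d' n)) y) =
      (216 : ℤ) • (G a b c d - G a b d c - G a c b d + G a c d b + G a d b c - G a d c b -
      G b a c d + G b a d c + G b c a d - G b c d a - G b d a c + G b d c a + G c a b d -
      G c a d b - G c b a d + G c b d a + G c d a b - G c d b a - G d a b c + G d a c b +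
      G d b a c - G d b c a - G d c a b + G d c b a) := by
    change (AS.A4 fun a' b' c' d' => (216 : ℤ) • com (AC.X5 y p
      (asr (AC.env [p, a, b, c, d] a') (AC.env [p, a, b, c, d] b') y)
      (AC.env [p, a, b, c, d] c')) (AC.env [p, a, b, c, d] d')) = _
    rw [AS.A4_smul]
    simp only [hG]
    rfl
  rw [e] at h
  exact h

/-- `[X,x_5] = 0` in characteristic three. -/
theorem K6_zero (hA : IsAltN 3 A) (y p : A) (N : ℕ) (hr : AC.Rel N y p) (a b c : A) :
    N • com (AC.X5 y p (asr a b y) c) c = 0 := by
  have h := AC.eq_zero_of_check hA.1 3 30 _ _ AC.cK6_ok hA.2 (env [p, a, b, c]) y N hr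
  have h2 : N • (com (AC.X5 y p (asr a b y) c) c - com (AC.X5 y p (asr b a y) c) c) = 0 := h
  rw [asr_sw12 hA.1 b a y, X5_neg_mid, com_neg_left, sub_neg_eq_add] at h2
  have h3 : N • (com (AC.X5 y p (asr a b y) c) c + com (AC.X5 y p (asr a b y) c) c +
    com (AC.X5 y p (asr a b y) c) c) = 0 := by
    have := hA.2 (com (AC.X5 y p (asr a b y) c) c)
    rw [succ_nsmul, two_nsmul] at this
    rw [this, smul_zero]
  rw [smul_add, h2, zero_add] at h3
  exact h3

/-- If a function of four arguments is alternating in the first three then the alternating sum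
has four essentially different terms. -/
theorem alt_sum {G : A → A → A → A → A} (s12 : ∀ a b c d, G b a c d = -G a b c d)
    (s23 : ∀ a b c d, G a c b d = -G a b c d) (a b c d : A) :
    G a b c d - G a b d c - G a c b d + G a c d b + G a d b c - G a d c b -
      G b a c d + G b a d c + G b c a d - G b c d a - G b d a c + G b d c a + G c a b d -
      G c a d b - G c b a d + G c b d a + G c d a b - G c d b a - G d a b c + G d a c b +
      G d b a c - G d b c a - G d c a b + G d c b a =
    (6 : ℤ) • (G a b c d - G a b d c + G a c d b - G b c d a) := by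
  have p213 := s12
  have p132 := s23
  have p231 : ∀ a b c d, G b c a d = G a b c d := by
    intro a b c d
    rw [s23 b a c d, s12 a b c d, neg_neg]
  have p312 : ∀ a b c d, G c a b d = G a b c d := by
    intro a b c d
    rw [s12 a c b d, s23 a b c d, neg_neg]
  have p321 : ∀ a b c d, G c b a d = -G a b c d := by
    intro a b c d
    rw [s12 b c a d, p231]
  rw [p132 a b c d, p132 a b d c, p132 a c d b, p213 a b c d, p213 a b d c, p231 a b c d,
    p231 a b d c, p132 b c d a, p312 a b c d, p213 a c d b, p321 a b c d, p213 b c d a,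
    p231 a c d b, p231 b c d a, p312 a b d c, p312 a c d b, p321 a b d c, p312 b c d a,
    p321 a c d b, p321 b c d a]
  abel

/-- `X` as a function of five arguments. -/
def tX (y a b c d e : A) : A := AC.X5 y (asr a b y) (asr c d y) e

theorem TX_eq (y a b c d e : A) : TX A ![a, b, c, d, e] y = tX y a b c d e := rfl

section Alt

variable {y : A} (hX : IsAltDer 5 (fun x => TX A x y))
include hX

theorem tX_sw12 (a b c d e : A) : tX y b a c d e = -tX y a b c d e := by
  have h := hX.toAlt.map_swap ![a, b, c, d, e] (i := 0) (j := 1) (by decide)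
  simp only [IsAltDer.toAlt_apply] at h
  have e1 : (![a, b, c, d, e] ∘ swap 0 1 : Fin 5 → A) = ![b, a, c, d, e] := by
    funext k; fin_cases k <;> rfl
  rw [e1, TX_eq, TX_eq] at h
  exact h

theorem tX_sw23 (a b c d e : A) : tX y a c b d e = -tX y a b c d e := by
  have h := hX.toAlt.map_swap ![a, b, c, d, e] (i := 1) (j := 2) (by decide)
  simp only [IsAltDer.toAlt_apply] at h
  have e1 : (![a, b, c, d, e] ∘ swap 1 2 : Fin 5 → A) = ![a, c, b, d, e] := by
    funext k; fin_cases k <;> rfl
  rw [e1, TX_eq, TX_eq] at h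
  exact h

theorem tX_sw25 (a b c d e : A) : tX y a e c d b = -tX y a b c d e := by
  have h := hX.toAlt.map_swap ![a, b, c, d, e] (i := 1) (j := 4) (by decide)
  simp only [IsAltDer.toAlt_apply] at h
  have e1 : (![a, b, c, d, e] ∘ swap 1 4 : Fin 5 → A) = ![a, e, c, d, b] := by
    funext k; fin_cases k <;> rfl
  rw [e1, TX_eq, TX_eq] at h
  exact h

theorem tX_sw34 (a b c d e : A) : tX y a b d c e = -tX y a b c d e := by
  have h := hX.toAlt.map_swap ![a, b, c, d, e] (i := 2) (j := 3) (by decide)
  simp only [IsAltDer.toAlt_apply] at h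
  have e1 : (![a, b, c, d, e] ∘ swap 2 3 : Fin 5 → A) = ![a, b, d, c, e] := by
    funext k; fin_cases k <;> rfl
  rw [e1, TX_eq, TX_eq] at h
  exact h

theorem tX_sw45 (a b c d e : A) : tX y a b c e d = -tX y a b c d e := by
  have h := hX.toAlt.map_swap ![a, b, c, d, e] (i := 3) (j := 4) (by decide)
  simp only [IsAltDer.toAlt_apply] at h
  have e1 : (![a, b, c, d, e] ∘ swap 3 4 : Fin 5 → A) = ![a, b, c, e, d] := by
    funext k; fin_cases k <;> rfl
  rw [e1, TX_eq, TX_eq] at h
  exact h

variable (hA : IsAlt A) (N : ℕ) (hR : ∀ a b : A, AC.Rel N y (asr a b y))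
include hA hR

/-- The four term relation. -/
theorem tX_rel (x1 x2 a b c d : A) :
    (1296 * N) • (com (tX y x1 x2 a b c) d - com (tX y x1 x2 a b d) c +
      com (tX y x1 x2 a c d) b - com (tX y x1 x2 b c d) a) = 0 := by
  have h := V4_sum hA y (asr x1 x2 y) N (hR x1 x2) (fun a b c d => com (tX y x1 x2 a b c) d)
    (fun a b c d => rfl) a b c d
  rw [alt_sum (G := fun a b c d => com (tX y x1 x2 a b c) d)] at h
  · have e : ∀ w : A, N • ((216 : ℤ) • ((6 : ℤ) • w)) = (1296 * N) • w := by
      intro w
      rw [smul_smul, show (216 : ℤ) * 6 = ((1296 : ℕ) : ℤ) from rfl, Nat.cast_smul_eq_nsmul,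
        smul_smul, mul_comm]
    rw [e] at h
    exact h
  · intro a b c d
    rw [tX_sw34 hX, com_neg_left]
  · intro a b c d
    rw [tX_sw45 hX, com_neg_left]

theorem tX_sw26 (a b c d e f : A) :
    (1296 * N) • (com (tX y a b c d e) f + com (tX y a f c d e) b) = 0 := by
  have h1 := tX_rel hX hA N hR a b f c d e
  have h2 := tX_rel hX hA N hR a f b c d e
  rw [tX_sw23 hX a b f c d, tX_sw23 hX a b f c e, tX_sw23 hX a b f d e] at h2
  simp only [com_neg_left] at h2
  have h3 : (1296 * N) • (com (tX y a b c d e) f + com (tX y a f c d e) b) =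
    -((1296 * N) • (com (tX y a b f c d) e - com (tX y a b f c e) d +
      com (tX y a b f d e) c - com (tX y a b c d e) f)) -
    (1296 * N) • (-com (tX y a b f c d) e - -com (tX y a b f c e) d +
      -com (tX y a b f d e) c - com (tX y a f c d e) b) := by
    simp only [smul_add, smul_sub, smul_neg]; abel
  rw [h3, h1, h2, neg_zero, sub_zero]

theorem tX_sw56 (a b c d e f : A) :
    (1296 * N) • (com (tX y a b c d e) f + com (tX y a b c d f) e) = 0 := by
  have h1 := tX_sw26 hX hA N hR a e c d b f
  rw [tX_sw25 hX a b c d e, tX_sw25 hX a b c d f, com_neg_left, com_neg_left] at h1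
  have h2 : (1296 * N) • (com (tX y a b c d e) f + com (tX y a b c d f) e) =
    -((1296 * N) • (-com (tX y a b c d e) f + -com (tX y a b c d f) e)) := by
    simp only [smul_add, smul_neg]; abel
  rw [h2, h1, neg_zero]

/-- **`X` commutes with everything, up to a factor.** -/
theorem tX_com (a b c d e f : A) : (5184 * N) • com (tX y a b c d e) f = 0 := by
  have h0 := tX_rel hX hA N hR a b c d e f
  have h1 := tX_sw56 hX hA N hR a b c d e f
  have h2 := tX_sw56 hX hA N hR a b c e f d
  have h3 := tX_sw56 hX hA N hR a b d e f c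
  -- `tX a b c e d = - tX a b c d e`, `tX a b d e c = tX a b c d e`
  have e2 : tX y a b c e d = -tX y a b c d e := tX_sw45 hX _ _ _ _ _
  have e3 : tX y a b d e c = tX y a b c d e := by
    rw [tX_sw45 hX a b d c e, tX_sw34 hX a b c d e, neg_neg]
  rw [e2, com_neg_left] at h2
  rw [e3] at h3
  have e : (5184 * N) • com (tX y a b c d e) f = (1296 * N) • (com (tX y a b c d e) f -
      com (tX y a b c d f) e + com (tX y a b c e f) d - com (tX y a b d e f) c) +
    (1296 * N) • (com (tX y a b c d e) f + com (tX y a b c d f) e) -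
    (1296 * N) • (com (tX y a b c e f) d + -com (tX y a b c d e) f) +
    (1296 * N) • (com (tX y a b d e f) c + com (tX y a b c d e) f) := by
    have e4 : (5184 * N : ℕ) = 1296 * N + 1296 * N + 1296 * N + 1296 * N := by ring
    rw [e4]
    simp only [smul_add, smul_sub, smul_neg, add_smul]; abel
  rw [e, h0, h1, h2, h3]; simp

end Alt

end

end MP6489b8
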