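import Mathlib
import Pool.Agent.Lib.MP_6489b8_al.A.CertT
import Pool.Agent.Lib.MP_6489b8_al.A.XCom

/-!
# The function `X` of order five is an alternating derivation
-/

namespace MP6489b8

universe u

open Function Equiv

section

variable {A : Type*} [NonUnitalNonAssocRing A]

/-- The auxiliary expression. -/
def aa (y p c d : A) : A :=
  AC.ang y (com c y) (d * p) + AC.ang y (d * com c y) p + (3 : ℤ) • AC.ang y (asr d c y) p -
    com (AC.ang y (com c d) p) y - asr (com c y) (p * d) y - com c y * asr p d y +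
    d * com (com c y * p) y + (2 : ℤ) • asr d (com c y * p) y

variable (hA : IsAlt A)
include hA

/-- The polarised form of (I1) (left form). -/
theorem I1_left_pol (y z v a c : A) :
    z * (com c y * asr v a y) + y * (com c z * asr v a y) + y * (com c y * asr v a z) =
    com c z * (asr v a y * y) + com c y * (asr v a z * y) + com c y * (asr v a y * z) := by
  have h := I1_left (Pol.isAlt hA) (Pol.mono 0 y + Pol.mono 1 z) (Pol.mono 0 v) (Pol.mono 0 a)
    (Pol.mono 0 c)
  have h1 := congrArg (Pol.coeff 1) h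
  simp only [Pol.coeff_one_mul, Pol.coeff_one_asr, Pol.coeff_zero_asr, Pol.coeff_zero_mul,
    Pol.coeff_zero_com, Pol.coeff_one_com, map_add, Pol.coeff_mono, if_true, zero_ne_one,
    if_false, one_ne_zero, add_zero, zero_add] at h1
  simp only [asr, com, mul_zero, zero_mul, sub_zero, add_zero, zero_add] at h1 ⊢
  linear_combination (norm := (simp only [mul_add, sub_mul, mul_sub]; abel)) h1

/-- `<u, v y> = <u, v> y` -/
theorem ang_mul_y (y u v : A) : u * ((v * y) * y) - y * (u * (v * y)) =
    (u * (v * y) - y * (u * v)) * y := by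
  have h1 : asr u (v * y) y = y * asr u v y := asr_mul_right hA u v y
  have h2 : asr y (u * v) y = 0 := asr_self_mid hA _ _
  have h3 : y * asr u v y = y * ((u * v) * y) - y * (u * (v * y)) := by rw [asr, mul_sub]
  rw [asr] at h1 h2
  rw [sub_mul]
  linear_combination (norm := abel) -h1 - h3 + h2

/-- `<u y, p> = y <u, p> + <[u,y], p>` -/
theorem ang_y_mul (y u p : A) : (u * y) * (p * y) - y * ((u * y) * p) =
    y * (u * (p * y) - y * (u * p)) + (com u y * (p * y) - y * (com u y * p)) := by
  have h1 : asr y u (p * y) = y * asr y u p := by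
    rw [asr_cyc hA y u (p * y), asr_mul_right hA, asr_cyc hA y u p]
  have h3 : y * asr y u p = y * ((y * u) * p) - y * (y * (u * p)) := by rw [asr, mul_sub]
  rw [h3, asr] at h1
  simp only [com, sub_mul, mul_sub]
  linear_combination (norm := abel) h1

theorem com_right_mul (c d y : A) :
    com c (d * y) = d * com c y + com c d * y + (3 : ℤ) • asr d c y := by
  have h := com_mul_left hA d y c
  rw [com_swap c (d * y), h, com_swap d c, com_swap y c, asr_sw23 hA d y c]
  simp only [neg_mul, mul_neg]
  have e : (3 : ℤ) • asr d c y = asr d c y + asr d c y + asr d c y := by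
    rw [show (3 : ℤ) = 1 + 1 + 1 from rfl, add_smul, add_smul, one_smul]
  rw [e]
  abel

theorem aa_zero (y s t c d : A) : aa y (asr s t y) c d = 0 := by
  have hL1 := I1_left_pol hA y (d * y) s t c
  have hL2 := congrArg (fun z => z * y) (I1_left_pol hA y d s t c)
  have hr : asr s t (d * y) = d * asr s t y + asr s t d * y - asr (com s t) d y := by
    have h := asr_mul hA d y s t
    rw [asr_cyc hA d s t, asr_cyc hA y s t] at h
    rw [asr_cyc' hA s t (d * y), h]
  have hk := I1_left hA y (com s t) d c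
  have hm := ang_mul_y hA y (com c y) (asr s t d)
  have hy := ang_y_mul hA y (com c d) (asr s t y)
  have hk1 := I1_left hA y s t (com c d)
  have a5 : asr d y (com c y * asr s t y) = -asr d (com c y * asr s t y) y := asr_sw23 hA _ _ _
  rw [hr, com_right_mul hA] at hL1
  rw [aa, AC.ang_eq hA, AC.ang_eq hA, AC.ang_eq hA, AC.ang_eq hA]
  set p := asr s t y with hp
  set g := com c y with hg
  set k1 := com c d with hk1d
  set x := asr d c y with hx
  set r := asr s t d with hrr
  set k := asr (com s t) d y with hkk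
  set dk := com k1 y with hdk
  clear_value p g x r k dk
  clear hr hp hg hx hrr hkk hdk
  clear_value k1
  have e3 : ∀ z : A, (3 : ℤ) • z = z + z + z := by
    intro z
    rw [show (3 : ℤ) = 1 + 1 + 1 from rfl, add_smul, add_smul, one_smul]
  have e2 : ∀ z : A, (2 : ℤ) • z = z + z := by
    intro z
    rw [show (2 : ℤ) = 1 + 1 from rfl, add_smul, one_smul]
  simp only [e3, e2] at *
  simp only [asr, com, mul_sub, sub_mul, mul_add, add_mul] at *
  linear_combination (norm := abel) -hL1 + hL2 - hk - hm - hy + hk1 + a5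

/-- The auxiliary element commutes with `y`. -/
theorem com_xx (y s t a b : A) :
    com (xx y b (asr s t y) a - xx y b a (asr s t y)) y = 0 := by
  have h := AC.eq_zero_of_check hA 0 30 _ _ AC.cT_ok (fun a => zero_smul _ a)
    (env [0, s, t, a, b]) y 1 (rel_zero 1 y)
  rw [one_smul] at h
  have h2 : com (xx y b (asr s t y) a) y - com (xx y b a (asr s t y)) y +
    aa y (asr s t y) a b = 0 := h
  rw [aa_zero hA, add_zero] at h2
  rw [com_sub_left, h2]

/-- `{(a,b,y),(u,v,y)} = 0` -/
theorem br_asr_asr (y a b u v : A) : AC.br y (asr a b y) (asr u v y) = 0 := by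
  have h := AC.eq_zero_of_check hA 0 30 _ _ AC.cM3_ok (fun a => zero_smul _ a)
    (env [0, a, b, u, v]) y 1 (rel_zero 1 y)
  rw [one_smul] at h
  exact h

omit hA in
theorem br_swap (y u v : A) : AC.br y u v = -AC.br y v u := by
  rw [AC.br, AC.br, neg_sub]

/-- The closed formula for `X`. -/
theorem X5_eq (y s t a b c : A) : AC.X5 y (asr s t y) (asr b c y) a =
    asr (xx y b (asr s t y) a - xx y b a (asr s t y)) c y := by
  have h := S_id hA y (asr s t y) a b c
  rw [br_asr_asr hA, mul_zero, sub_zero, br_swap y a] at h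
  rw [AC.X5, ← h, mul_neg, sub_eq_add_neg]

omit hA in
theorem X5_add_left (y p p' q c : A) :
    AC.X5 y (p + p') q c = AC.X5 y p q c + AC.X5 y p' q c := by
  simp only [AC.X5, AC.br, AC.ang, com, asr, sub_mul, mul_sub, add_mul,
    mul_add, smul_sub, smul_add]
  abel

omit hA in
theorem X5_add_mid (y p q q' c : A) :
    AC.X5 y p (q + q') c = AC.X5 y p q c + AC.X5 y p q' c := by
  simp only [AC.X5, AC.br, AC.ang, com, asr, sub_mul, mul_sub, add_mul,
    mul_add, smul_sub, smul_add]
  abel

omit hA in
theorem X5_add_right (y p q c c' : A) :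
    AC.X5 y p q (c + c') = AC.X5 y p q c + AC.X5 y p q c' := by
  simp only [AC.X5, AC.br, AC.ang, com, asr, sub_mul, mul_sub, add_mul,
    mul_add, smul_sub, smul_add]
  abel

omit hA in
theorem X5_neg_left (y p q c : A) : AC.X5 y (-p) q c = -AC.X5 y p q c := by
  simp only [AC.X5, AC.br, AC.ang, com, asr, mul_neg, neg_mul, sub_mul, mul_sub, add_mul,
    mul_add, smul_neg, smul_sub]
  abel

omit hA in
theorem asr_zero_left' (b c : A) : asr (0 : A) b c = 0 := by simp [asr]

/-- Exchange of the last two arguments. -/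
theorem tX_s45 (y a b c d e : A) : AC.X5 y (asr a b y) (asr c e y) d =
    -AC.X5 y (asr a b y) (asr c d y) e := by
  have h : ∀ d : A, AC.X5 y (asr a b y) (asr c d y) d = 0 := by
    intro d
    rw [X5_skew1 hA, AC.ang_com_asr hA, asr_zero_left']
  have h1 := h (d + e)
  rw [asr_add_mid, X5_add_mid, X5_add_right, X5_add_right, h, h, zero_add, add_zero] at h1
  exact eq_neg_of_add_eq_zero_right h1

/-- Exchange of the second and the last argument. -/
theorem tX_s25 (y a b c d e : A) : AC.X5 y (asr a e y) (asr c d y) b =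
    -AC.X5 y (asr a b y) (asr c d y) e := by
  have h : ∀ b : A, AC.X5 y (asr a b y) (asr c d y) b = 0 := by
    intro b
    rw [X5_skew2 hA, AC.ang_asr_com hA, asr_zero_left', neg_zero]
  have h1 := h (b + e)
  rw [asr_add_mid, X5_add_left, X5_add_right, X5_add_right, h, h, zero_add, add_zero] at h1
  exact eq_neg_of_add_eq_zero_right h1

theorem tX_s12 (y a b c d e : A) : AC.X5 y (asr b a y) (asr c d y) e =
    -AC.X5 y (asr a b y) (asr c d y) e := by
  rw [asr_sw12 hA b a y, X5_neg_left]

theorem tX_s34 (y a b c d e : A) : AC.X5 y (asr a b y) (asr d c y) e =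
    -AC.X5 y (asr a b y) (asr c d y) e := by
  rw [asr_sw12 hA d c y, X5_neg_mid]

theorem tX_s23 (y a b c d e : A) : AC.X5 y (asr a c y) (asr b d y) e =
    -AC.X5 y (asr a b y) (asr c d y) e := by
  rw [tX_s25 hA y a e b d c, tX_s34 hA y a e d b c, tX_s45 hA y a e d c b, tX_s34 hA y a e c d b,
    tX_s25 hA y a b c d e]
  simp only [neg_neg]

/-- The value after a change of the first argument. -/
theorem tX_mv (y a b c d e : A) : AC.X5 y (asr a b y) (asr c d y) e =
    -asr (xx y c (asr d b y) e - xx y c e (asr d b y)) a y := by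
  have h1 : AC.X5 y (asr a b y) (asr c d y) e = -AC.X5 y (asr d b y) (asr c a y) e := by
    rw [tX_s12 hA y b a c d e, tX_s34 hA y b a d c e, tX_s23 hA y b d a c e,
      tX_s34 hA y b d c a e, tX_s12 hA y d b c a e]
    simp only [neg_neg]
  rw [h1, X5_eq hA]

end

theorem map_X5 {B C : Type*} [NonUnitalNonAssocRing B] [NonUnitalNonAssocRing C]
    (φ : B →ₙ+* C) (y p q c : B) : φ (AC.X5 y p q c) = AC.X5 (φ y) (φ p) (φ q) (φ c) := by
  simp only [AC.X5, AC.br, AC.ang, map_sub, map_add, map_mul, map_asr, map_com, map_zsmul]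

theorem isAltDer_TX {B : Type u} [NonUnitalNonAssocRing B] (hB : IsAlt B) (y : B) :
    IsAltDer 5 (fun x => TX B x y) := by
  have sw : ∀ (i : Fin 4) (x : Fin 5 → B),
      TX B (x ∘ swap i.castSucc i.succ) y = -TX B x y := by
    intro i x
    fin_cases i
    · exact tX_s12 hB y (x 0) (x 1) (x 2) (x 3) (x 4)
    · exact tX_s23 hB y (x 0) (x 1) (x 2) (x 3) (x 4)
    · exact tX_s34 hB y (x 0) (x 1) (x 2) (x 3) (x 4)
    · exact tX_s45 hB y (x 0) (x 1) (x 2) (x 3) (x 4)
  have mv : ∀ (x : Fin 5 → B) (a : B), TX B (update x 0 a) y =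
      -asr (xx y (x 2) (asr (x 3) (x 1) y) (x 4) - xx y (x 2) (x 4) (asr (x 3) (x 1) y)) a y := by
    intro x a
    exact tX_mv hB y a (x 1) (x 2) (x 3) (x 4)
  refine IsAltDer.of_swap (n := 3) sw ?_ ?_ ?_ ?_
  · intro x h
    change AC.X5 y (asr (x 0) (x 1) y) (asr (x 2) (x 3) y) (x 4) = 0
    rw [h, asr_self_left hB]
    simp [AC.X5, AC.br, AC.ang, com, asr]
  · intro x a b
    rw [mv, mv, mv, asr_add_mid]; abel
  · intro x a b
    rw [mv, mv, mv, asr_mul_mid hB, com_xx hB, asr_zero_left', add_zero]
    simp only [neg_mul, mul_neg]; abel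
  · intro S x a
    rw [mv, mv, asr_centr, map_neg]

/-- **`X` is a good function of order five** (over the integers). -/
theorem good_TX : Good.{u} 0 5 TX := by
  refine ⟨?_, ?_, ?_⟩
  · intro B C _ _ φ x y
    simp only [TX]
    rw [map_X5, map_asr, map_asr]
  · intro B _ hB y
    exact isAltDer_TX hB.1 y
  · intro B _ hB x i
    have h := isAltDer_TX hB.1 (x i)
    have h3 : ∀ x : Fin 5 → B, ∀ y, x 0 = y → TX B x y = 0 := by
      intro x y hx
      change AC.X5 y (asr (x 0) (x 1) y) (asr (x 2) (x 3) y) (x 4) = 0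
      rw [hx, asr_self_mid hB.1]
      simp [AC.X5, AC.br, AC.ang, com, asr]
    by_cases hi : i = 0
    · subst hi; exact h3 x _ rfl
    · have h4 := h.toAlt.map_swap x hi
      simp only [IsAltDer.toAlt_apply] at h4
      have h5 : TX B (x ∘ swap i 0) (x i) = 0 := h3 _ _ (by simp)
      rw [h5] at h4
      exact neg_eq_zero.1 h4.symm

end MP6489b8
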