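import Mathlib
import Pool.Agent.Lib.MP_6489b8_al.A.XGood
import Pool.Agent.Lib.MP_6489b8_al.Cyc

/-!
# The families built from the function of order five
-/

namespace MP6489b8

universe u

theorem goodC_TX : GoodC.{u} 0 5 (scl 10368 TX) := by
  refine { toGood := good_TX.scl 10368, comm := ?_ }
  intro B _ hB x y z
  have h := tX_com (isAltDer_TX hB.1 y) hB.1 2 (fun a b => rel_asr hB.1 y a b)
    (x 0) (x 1) (x 2) (x 3) (x 4) z
  have e2 : com (scl 10368 TX B x y) z = 0 := by
    rw [scl, AC.com_nsmul_left]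
    exact h
  exact sub_eq_zero.1 e2

/-- The functions of odd order for residue characteristics different from 2 and 3. -/
def TXO : ∀ k : ℕ, ∀ (B : Type u) [NonUnitalNonAssocRing B], (Fin (2 * k + 5) → B) → B → B
  | 0 => scl 10368 TX
  | k + 1 => kap (TXO k)

theorem goodC_TXO (k : ℕ) : GoodC.{u} 0 (2 * k + 5) (TXO k) := by
  induction k with
  | zero => exact goodC_TX
  | succ k ih => exact GoodC.kap (m := 2 * k + 4) ih

theorem IsAltN.of_zero {n : ℕ} {A : Type u} [NonUnitalNonAssocRing A] (h : IsAltN n A) :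
    IsAltN 0 A := ⟨h.1, fun a => zero_smul _ a⟩

theorem Good.mod {r : ℕ} {T : ∀ (B : Type u) [NonUnitalNonAssocRing B], (Fin r → B) → B → B}
    (h : Good 0 r T) (n : ℕ) : Good n r T where
  nat := h.nat
  der B _ hB := h.der B hB.of_zero
  self B _ hB := h.self B hB.of_zero

/-- The function of order six in characteristic three. -/
theorem goodC_K6 : GoodC.{u} 3 6 (brk TX) := by
  refine Good.brk (m := 3) (good_TX.mod 3) ?_
  intro B _ hB x y
  have h := K6_zero hB y (asr (x 0) (x 1) y) 2 (rel_asr hB.1 y _ _) (x 2) (x 3) (x 4)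
  have h3 := hB.2 (com (TX B x y) (x (Fin.last 4)))
  rw [succ_nsmul] at h3
  have h' : 2 • com (TX B x y) (x (Fin.last 4)) = 0 := h
  rwa [h', zero_add] at h3

/-- The functions of even order in characteristic three. -/
def TKE : ∀ k : ℕ, ∀ (B : Type u) [NonUnitalNonAssocRing B], (Fin (2 * k + 6) → B) → B → B
  | 0 => brk TX
  | k + 1 => kap (TKE k)

theorem goodC_TKE (k : ℕ) : GoodC.{u} 3 (2 * k + 6) (TKE k) := by
  induction k with
  | zero => exact goodC_K6
  | succ k ih => exact GoodC.kap (m := 2 * k + 5) ih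

end MP6489b8
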