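import Mathlib
import Pool.Agent.Lib.MP_6489b8_al.A.XFam

/-!
# Commutators of alternating derivations with values almost in the nucleus
-/

namespace MP6489b8

universe u

open Function Equiv

section

variable {A : Type u} [NonUnitalNonAssocRing A]

/-- Commutation with `k` is a derivation if `3 (k,a,b) = 0`. -/
theorem com_mul_of_nuc (hA : IsAlt A) {k : A} (a b : A) (h : 3 • asr k a b = 0) :
    com k (a * b) = com k a * b + a * com k b := by
  have h1 := com_mul_left hA a b k
  have h2 : asr a b k = asr k a b := (asr_cyc hA k a b).symm
  rw [h2, h, add_zero] at h1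
  rw [com_swap, h1, com_swap a k, com_swap b k, mul_neg, neg_mul]
  abel

/-- The Jacobi identity for `k` with `6 (k,a,b) = 0`. -/
theorem jacobi_of_nuc (hA : IsAlt A) {k : A} (v w : A) (h : 3 • asr k v w = 0) :
    com (com k v) w = com (com k w) v + com k (com v w) := by
  have e1 := asr_cyc hA k v w
  have e2 := asr_cyc' hA k v w
  have e3 := asr_sw12 hA k v w
  have e4 := asr_sw13 hA k v w
  have e5 := asr_sw23 hA k v w
  have e6 : asr k v w + asr k v w + asr k v w = 0 := by
    rw [succ_nsmul, two_nsmul] at h
    exact h
  simp only [asr] at e1 e2 e3 e4 e5 e6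
  simp only [com, sub_mul, mul_sub]
  linear_combination (norm := abel) e6 + e6 - e1 - e2 - e3 - e4 - e5

/-- If `t` is an alternating derivation with `3 (t(x),u,v) = 0` and `[t(x),x_{r+1}]` vanishes when
the last two arguments coincide then it is an alternating derivation. -/
theorem isAltDer_brkZ (hA : IsAlt A) {m : ℕ} {t : (Fin (m + 2) → A) → A}
    (ht : IsAltDer (m + 2) t) (hn : ∀ x u v, 3 • asr (t x) u v = 0)
    (h0 : ∀ x : Fin (m + 2) → A, com (t x) (x (Fin.last (m + 1))) = 0) :
    IsAltDer (m + 3) (fun x : Fin (m + 3) → A => com (t (Fin.init x)) (x (Fin.last (m + 2)))) := by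
  have hs : ∀ (i : Fin (m + 2)) (x : Fin (m + 3) → A),
      com (t (Fin.init (x ∘ swap i.castSucc i.succ)))
        ((x ∘ swap i.castSucc i.succ) (Fin.last (m + 2))) =
      -com (t (Fin.init x)) (x (Fin.last (m + 2))) := by
    intro i x
    refine Fin.lastCases ?_ (fun j => ?_) i
    · -- the last two arguments
      set a := x (Fin.last (m + 1)).castSucc with ha
      set b := x (Fin.last (m + 2)) with hb
      have e0 : (Fin.last (m + 1)).succ = Fin.last (m + 2) := rfl
      have e1 : Fin.init (x ∘ swap (Fin.last (m + 1)).castSucc (Fin.last (m + 1)).succ) =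
          update (Fin.init x) (Fin.last (m + 1)) b := by
        funext k
        by_cases hk : k = Fin.last (m + 1)
        · subst hk
          rw [update_self]
          simp only [Fin.init, comp_apply, swap_apply_left]
          rfl
        · rw [update_of_ne hk]
          simp only [Fin.init, comp_apply]
          rw [swap_apply_of_ne_of_ne]
          · intro h
            exact hk (Fin.castSucc_injective _ h)
          · intro h
            have := congrArg Fin.val h
            simp at this
            omega
      have e2 : (x ∘ swap (Fin.last (m + 1)).castSucc (Fin.last (m + 1)).succ)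
          (Fin.last (m + 2)) = a := by
        rw [e0]
        simp only [comp_apply, swap_apply_right]
        rfl
      have e3 : Fin.init x = update (Fin.init x) (Fin.last (m + 1)) a := by
        rw [ha]
        exact (update_eq_self (Fin.last (m + 1)) (Fin.init x)).symm
      rw [e1, e2]
      have hab := h0 (update (Fin.init x) (Fin.last (m + 1)) (a + b))
      have haa := h0 (update (Fin.init x) (Fin.last (m + 1)) a)
      have hbb := h0 (update (Fin.init x) (Fin.last (m + 1)) b)
      rw [update_self] at hab haa hbb
      rw [ht.add, com_add_left, com_add_right, com_add_right, haa, hbb, zero_add, add_zero] at hab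
      rw [← e3] at hab
      exact eq_neg_of_add_eq_zero_right hab
    · have e1 : Fin.init (x ∘ swap j.castSucc.castSucc j.castSucc.succ) =
          Fin.init x ∘ swap j.castSucc j.succ := by
        have h1 : j.castSucc.succ = j.succ.castSucc := rfl
        rw [h1, init_comp_swap]
      have e2 : (x ∘ swap j.castSucc.castSucc j.castSucc.succ) (Fin.last (m + 2)) =
          x (Fin.last (m + 2)) := by
        simp only [comp_apply]
        rw [swap_apply_of_ne_of_ne]
        · intro h
          have := congrArg Fin.val h
          simp at this
          omega
        · intro h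
          have := congrArg Fin.val h
          simp at this
          omega
      have key := ht.toAlt.map_swap (Fin.init x)
        (i := j.castSucc) (j := j.succ) (Fin.castSucc_lt_succ).ne
      simp only [IsAltDer.toAlt_apply] at key
      rw [e1, e2, key, com_neg_left]
  have upd : ∀ (x : Fin (m + 3) → A) (a : A),
      com (t (Fin.init (update x 0 a))) (update x 0 a (Fin.last (m + 2))) =
        com (t (update (Fin.init x) 0 a)) (x (Fin.last (m + 2))) := by
    intro x a
    have e0 : (0 : Fin (m + 3)) = (0 : Fin (m + 2)).castSucc := rfl
    rw [e0, init_update_castSucc, update_of_ne]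
    intro h
    have := congrArg Fin.val h
    simp at this
  refine IsAltDer.of_swap (n := m + 1) hs ?_ ?_ ?_ ?_
  · intro x h
    have : t (Fin.init x) = 0 := by
      refine ht.alt _ 0 1 ?_ h
      intro h
      have := congrArg Fin.val h
      simp at this
    rw [this]; simp [com]
  · intro x a b
    rw [upd, upd, upd, ht.add, com_add_left]
  · -- derivation: move the first argument to the last place
    intro x a b
    have key : ∀ c : A, com (t (Fin.init (update x 0 c))) (update x 0 c (Fin.last (m + 2))) =
        -com (t (Fin.init (x ∘ swap 0 (Fin.last (m + 2))))) c := by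
      intro c
      have hne : (0 : Fin (m + 3)) ≠ Fin.last (m + 2) := by
        intro h
        have := congrArg Fin.val h
        simp at this
      have h1 := swap_of_adjacent (T := fun x : Fin (m + 3) → A =>
        com (t (Fin.init x)) (x (Fin.last (m + 2)))) hs hne (update x 0 c)
      have h2 := (neg_eq_iff_eq_neg.2 h1).symm
      have e1 : ((update x 0 c) ∘ swap 0 (Fin.last (m + 2))) (Fin.last (m + 2)) = c := by
        simp
      have e2 : Fin.init ((update x 0 c) ∘ swap 0 (Fin.last (m + 2))) =
          Fin.init (x ∘ swap 0 (Fin.last (m + 2))) := by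
        funext k
        simp only [Fin.init, comp_apply]
        rw [update_of_ne]
        intro h
        have h3 : k.castSucc = Fin.last (m + 2) := by
          have := congrArg (swap (0 : Fin (m + 3)) (Fin.last (m + 2))) h
          simpa using this
        exact absurd h3 (Fin.castSucc_lt_last k).ne
      rw [e1, e2] at h2
      exact h2
    rw [key, key, key, com_mul_of_nuc hA _ _ (hn _ _ _), neg_mul, mul_neg, neg_add]
  · intro S x a
    rw [upd, upd, ht.centr, com_centr_left]

end

/-- **The lemma over the integers.** -/
theorem Good.brkZ {n m : ℕ}
    {T : ∀ (B : Type u) [NonUnitalNonAssocRing B], (Fin (m + 2) → B) → B → B}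
    (hT : Good n (m + 2) T)
    (h0 : ∀ (B : Type u) [NonUnitalNonAssocRing B], IsAltN n B → ∀ (x : Fin (m + 2) → B) (y : B),
      com (T B x y) (x (Fin.last (m + 1))) = 0)
    (hn : ∀ (B : Type u) [NonUnitalNonAssocRing B], IsAltN n B → ∀ (x : Fin (m + 2) → B)
      (y u v : B), 3 • asr (T B x y) u v = 0)
    (hc : ∀ (B : Type u) [NonUnitalNonAssocRing B], IsAltN n B → ∀ (x : Fin (m + 2) → B)
      (y u : B), 3 • com (T B x y) u = 0) :
    GoodC n (m + 3) (MP6489b8.brk T) := by
  have hder : ∀ (B : Type u) [NonUnitalNonAssocRing B], IsAltN n B → ∀ y : B,
      IsAltDer (m + 3) (fun x => MP6489b8.brk T B x y) := by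
    intro B _ hB y
    exact isAltDer_brkZ hB.1 (hT.der B hB y) (fun x => hn B hB x y) (fun x => h0 B hB x y)
  refine { nat := ?_, der := hder, self := ?_, comm := ?_ }
  · intro B C _ _ φ x y
    simp only [MP6489b8.brk]
    rw [map_com, hT.nat]
    rfl
  · intro B _ hB x i
    have h1 : ∀ (x : Fin (m + 3) → B) (y : B), x 0 = y → MP6489b8.brk T B x y = 0 := by
      intro x y hx
      simp only [MP6489b8.brk]
      have : T B (Fin.init x) y = 0 := by
        have := hT.self B hB (Fin.init x) 0
        have e : Fin.init x 0 = y := hx
        rwa [e] at this
      rw [this]; simp [com]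
    by_cases hi : i = 0
    · subst hi; exact h1 x _ rfl
    · have h4 := (hder B hB (x i)).toAlt.map_swap x hi
      simp only [IsAltDer.toAlt_apply] at h4
      have h5 : MP6489b8.brk T B (x ∘ swap i 0) (x i) = 0 := h1 _ _ (by simp)
      rw [h5] at h4
      exact neg_eq_zero.1 h4.symm
  · intro B _ hB x y
    -- `L(u,v;w) = [[t(..,u),v],w]`
    set t : (Fin (m + 2) → B) → B := fun x => T B x y with ht'
    have ht : IsAltDer (m + 2) t := hT.der B hB y
    set g : Fin (m + 2) → B := Fin.init x with hg
    let K : B → B → B := fun u v => com (t (update g (Fin.last (m + 1)) u)) v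
    have h00 : ∀ u, K u u = 0 := by
      intro u
      have := h0 B hB (update g (Fin.last (m + 1)) u) y
      rw [update_self] at this
      exact this
    have Kadd1 : ∀ u u' v, K (u + u') v = K u v + K u' v := by
      intro u u' v
      simp only [K]; rw [ht.add, com_add_left]
    have Kadd2 : ∀ u v v', K u (v + v') = K u v + K u v' := by
      intro u v v'
      simp only [K]; rw [com_add_right]
    have Ksw : ∀ u v, K u v = -K v u := by
      intro u v
      have := h00 (u + v)
      rw [Kadd1, Kadd2, Kadd2, h00, h00, zero_add, add_zero] at this
      exact eq_neg_of_add_eq_zero_left this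
    -- the value at a commutator
    have Kcom : ∀ u v w, K (com u v) w = com (K u v) w + com (K u v) w := by
      intro u v w
      have h1 : t (update g (Fin.last (m + 1)) (com u v)) = K u v + K u v := by
        have e1 := ht.mul g (Fin.last (m + 1)) u v
        have e2 := ht.mul g (Fin.last (m + 1)) v u
        have e3 : t (update g (Fin.last (m + 1)) (com u v)) =
            t (update g (Fin.last (m + 1)) (u * v)) - t (update g (Fin.last (m + 1)) (v * u)) := by
          have := ht.add g (Fin.last (m + 1)) (com u v) (v * u)
          rw [com, sub_add_cancel] at this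
          rw [this, com]; abel
        have e4 : K v u = -K u v := Ksw v u
        have e5 : K u v = t (update g (Fin.last (m + 1)) u) * v -
          v * t (update g (Fin.last (m + 1)) u) := rfl
        have e6 : K v u = t (update g (Fin.last (m + 1)) v) * u -
          u * t (update g (Fin.last (m + 1)) v) := rfl
        rw [e3, e1, e2]
        linear_combination (norm := abel) -e4 - e5 + e6
      change com (t (update g (Fin.last (m + 1)) (com u v))) w = _
      rw [h1, com_add_left]
    have key : ∀ u v w, com (K u v) w + com (K u v) w = com (K w v) u - com (K w u) v := by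
      intro u v w
      rw [← Kcom, Ksw]
      have : K w (com u v) = com (K w u) v - com (K w v) u := by
        change com (t _) (com u v) = com (com (t _) u) v - com (com (t _) v) u
        rw [jacobi_of_nuc hB.1 (k := t _) u v (hn B hB _ y _ _)]; abel
      rw [this]; abel
    have h3 : ∀ u v w : B, com (K u v) w + com (K u v) w + com (K u v) w = 0 := by
      intro u v w
      have h := hc B hB (update g (Fin.last (m + 1)) u) y v
      have h' : 3 • K u v = 0 := h
      rw [succ_nsmul, two_nsmul] at h'
      rw [← com_add_left, ← com_add_left, h']
      simp [com]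
    have cyc : ∀ u v w, com (K u v) w = com (K v w) u + com (K w u) v := by
      intro u v w
      have h1 := key u v w
      have h2 := h3 u v w
      have h4 : com (K w v) u = -com (K v w) u := by rw [Ksw w v, com_neg_left]
      rw [h4] at h1
      linear_combination (norm := abel) h2 - h1
    have fin : ∀ u v w, com (K u v) w = 0 := by
      intro u v w
      have c2 := cyc v w u
      have c3 := h3 u v w
      have c4 := cyc w u v
      linear_combination (norm := abel) c3 + c2 + c4
    have e1 : MP6489b8.brk T B x y = K (g (Fin.last (m + 1))) (x (Fin.last (m + 2))) := by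
      simp only [MP6489b8.brk, K]
      rw [update_eq_self]
    intro z
    rw [e1]
    exact sub_eq_zero.1 (fin _ _ z)

end MP6489b8
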