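import Mathlib
import Pool.Agent.Lib.MP_6489b8_al.Even
import Pool.Agent.Lib.MP_6489b8_al.A.XFam

/-!
# Values of the function of order five
-/

namespace MP6489b8

universe u

open Finset

namespace Env

variable {t : Tab} {Φ : Type u} [CommRing Φ]

/-- `{u,v}` -/
def cang (t : Tab) (y u v : Comb) : Comb :=
  cadd (cadd (cmul t u (ccom t v y)) (cmul t (ccom t u y) v))
    (cadd (casr t u v y) (casr t u v y))

theorem ev_cang (y u v : Comb) : ev t Φ (cang t y u v) =
    AC.ang (ev t Φ y) (ev t Φ u) (ev t Φ v) := by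
  simp only [cang, ev_cadd, ev_cmul, ev_ccom, ev_casr, AC.ang, two_smul]

def cbr (t : Tab) (y u v : Comb) : Comb := csub (cang t y u v) (cang t y v u)

theorem ev_cbr (y u v : Comb) : ev t Φ (cbr t y u v) =
    AC.br (ev t Φ y) (ev t Φ u) (ev t Φ v) := by
  simp only [cbr, ev_csub, ev_cang, AC.br]

def cX5 (t : Tab) (y u v c : Comb) : Comb :=
  csub (cmul t (cbr t y u c) v) (cmul t u (cbr t y v c))

theorem ev_cX5 (y u v c : Comb) : ev t Φ (cX5 t y u v c) =
    AC.X5 (ev t Φ y) (ev t Φ u) (ev t Φ v) (ev t Φ c) := by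
  simp only [cX5, ev_csub, ev_cmul, ev_cbr, AC.X5]

def ctX (t : Tab) (y a b c d e : Comb) : Comb :=
  cX5 t y (casr t a b y) (casr t c d y) e

theorem ev_ctX (y a b c d e : Comb) : ev t Φ (ctX t y a b c d e) =
    tX (ev t Φ y) (ev t Φ a) (ev t Φ b) (ev t Φ c) (ev t Φ d) (ev t Φ e) := by
  simp only [ctX, ev_cX5, ev_casr, tX]

end Env

section M8

open Env

variable (K : Type u) [CommRing K]

/-- The second argument for odd order. -/
noncomputable def yO : Env M8 K := ev M8 K [(({0}, 2), 1), (({1}, 4), 1), (({2}, 1), 1)]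

theorem tX_x8 : tX (yO K) (x8 K 0) (x8 K 1) (x8 K 2) (x8 K 3) (x8 K 4) =
    (-2 : ℤ) • bas M8 (range 8, 6) := by
  have hx : ∀ i, x8 K i = ev M8 K [(({i + 3}, 1), 1)] := fun i => (ev_singleton _).symm
  rw [hx, hx, hx, hx, hx, yO, ← ev_ctX]
  have : ctX M8 [(({0}, 2), 1), (({1}, 4), 1), (({2}, 1), 1)] [(({0 + 3}, 1), 1)]
      [(({1 + 3}, 1), 1)] [(({2 + 3}, 1), 1)] [(({3 + 3}, 1), 1)] [(({4 + 3}, 1), 1)] =
      [((range 8, 6), -2)] := by
    decide +kernel
  rw [this, ev, ev, add_zero]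

theorem TX_x8 : TX (Env M8 K) (fun i => x8 K i.1) (yO K) = (-2 : ℤ) • bas M8 (range 8, 6) :=
  tX_x8 K

theorem good_range (k : ℕ) : good M8 (range (2 * k + 8), 6) := by
  have hp : M8.p 6 = false := rfl
  unfold good
  rw [card_range, hp]
  have : (2 * k + 8) % 2 = 0 := by omega
  simp [this]

theorem TXO_x8 (k : ℕ) : TXO k (Env M8 K) (fun i => x8 K i.1) (yO K) =
    (-((20736 * 4 ^ k : ℕ) : ℤ)) • bas M8 (range (2 * k + 8), 6) := by
  induction k with
  | zero =>
    change 10368 • tX (yO K) (x8 K 0) (x8 K 1) (x8 K 2) (x8 K 3) (x8 K 4) = _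
    rw [tX_x8, ← Nat.cast_smul_eq_nsmul ℤ, smul_smul]
    rfl
  | succ k ih =>
    change 2 • (TXO k (Env M8 K) (fun i => x8 K i.1) (yO K) *
      com (x8 K (2 * k + 5)) (x8 K (2 * k + 6))) = _
    rw [ih, com_x8 K (by omega), smul_mul_assoc, mul_smul_comm, bas_mul_bas_lt (good_range k)]
    · have : M8.m 6 0 = [(6, 1)] := rfl
      rw [this, vec, vec, one_smul, add_zero, ← Nat.cast_smul_eq_nsmul ℤ, smul_smul,
        smul_smul]
      have e : range (2 * k + 8) ∪ {2 * k + 5 + 3, 2 * k + 6 + 3} = range (2 * (k + 1) + 8) := by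
        ext a
        simp only [mem_union, mem_insert, mem_singleton, mem_range]
        omega
      rw [e]
      congr 1
      push_cast
      ring
    · unfold good
      have hp : M8.p 0 = false := rfl
      have : ({2 * k + 5 + 3, 2 * k + 6 + 3} : Finset ℕ).card = 2 := by
        rw [card_pair (by omega)]
      simp only [hp, this]
      rfl
    · intro s hs t ht
      simp only [mem_range, mem_insert, mem_singleton] at hs ht
      omega

end M8

/-- Order five, residue characteristic different from 2. -/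
theorem strictStep_five_of_two (Φ : Type u) [CommRing Φ] (K : Type u) [CommRing K] (f : Φ →+* K)
    (h2 : (2 : K) ≠ 0) : StrictStep Φ 5 := by
  refine good_TX.strictStep_env (by omega) Φ K f M8 (N := 0) (by simp) M8_alt
    (fun i => x8 K i.1) (yO K) ?_
  rw [TX_x8]
  apply zsmul_bas_ne_zero
  push_cast
  rw [neg_ne_zero]
  exact h2

/-- Odd order, residue characteristic different from 2 and 3. -/
theorem strictStep_odd_of_six (Φ : Type u) [CommRing Φ] (K : Type u) [Field K] (f : Φ →+* K)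
    (h6 : (6 : K) ≠ 0) (k : ℕ) : StrictStep Φ (2 * k + 5) := by
  refine (goodC_TXO k).toGood.strictStep_env (by omega) Φ K f M8 (N := 0) (by simp) M8_alt
    (fun i => x8 K i.1) (yO K) ?_
  rw [TXO_x8]
  apply zsmul_bas_ne_zero
  have h2 : (2 : K) ≠ 0 := by
    intro h; apply h6
    have : (6 : K) = 2 * 3 := by norm_num
    rw [this, h, zero_mul]
  have h3 : (3 : K) ≠ 0 := by
    intro h; apply h6
    have : (6 : K) = 2 * 3 := by norm_num
    rw [this, h, mul_zero]
  push_cast
  have e : (20736 : K) * 4 ^ k = 2 ^ 8 * 3 ^ 4 * (2 ^ 2) ^ k := by norm_num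
  rw [neg_ne_zero, e]
  exact mul_ne_zero (mul_ne_zero (pow_ne_zero _ h2) (pow_ne_zero _ h3))
    (pow_ne_zero _ (pow_ne_zero _ h2))

end MP6489b8
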