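import Mathlib
import Pool.Agent.Lib.MP_6489b8_al.A.BrkZ

/-!
# Alternating derivations whose commutators satisfy a cyclic relation
-/

namespace MP6489b8

universe u

section

variable {A : Type*} [NonUnitalNonAssocRing A] (hA : IsAlt A) (V : A → A → A)
include hA

/-- Two ways to expand `V(ab,cd)`. -/
theorem der_two_ways
    (h1 : ∀ a b c, V (a * b) c = V a c * b + a * V b c)
    (h2 : ∀ a b c, V a (b * c) = V a b * c + b * V a c) (a b c d : A) :
    V a c * com d b + com a c * V b d + 2 • asr (V a c) d b - 2 • asr (V b d) a c +
      asr (V a d) b c - asr (V b c) d a = 0 := by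
  have e : V (a * b) (c * d) = V (a * b) (c * d) := rfl
  conv_lhs at e => rw [h1, h2 a, h2 b]
  conv_rhs at e => rw [h2, h1, h1]
  have s1 : asr c (V a d) b = asr (V a d) b c := asr_cyc hA _ _ _
  have s2 : asr a (V b c) d = asr (V b c) d a := asr_cyc hA _ _ _
  have s3 : asr (V a c) b d = -asr (V a c) d b := asr_sw23 hA _ _ _
  have s4 : asr a c (V b d) = asr (V b d) a c := (asr_cyc hA _ _ _).symm
  have s5 : asr c a (V b d) = -asr (V b d) a c := by
    rw [asr_sw12 hA c a, s4]
  have t1 : asr c (V a d) b = (c * V a d) * b - c * (V a d * b) := rfl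
  have t2 : asr a (V b c) d = (a * V b c) * d - a * (V b c * d) := rfl
  have t3 : asr (V a c) b d = (V a c * b) * d - V a c * (b * d) := rfl
  have t3' : asr (V a c) d b = (V a c * d) * b - V a c * (d * b) := rfl
  have t4 : asr a c (V b d) = (a * c) * V b d - a * (c * V b d) := rfl
  have t5 : asr c a (V b d) = (c * a) * V b d - c * (a * V b d) := rfl
  have c1 : V a c * com d b = V a c * (d * b) - V a c * (b * d) := by rw [com, mul_sub]
  have c2 : com a c * V b d = (a * c) * V b d - (c * a) * V b d := by rw [com, sub_mul]
  rw [two_nsmul, two_nsmul]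
  simp only [add_mul, mul_add] at e
  linear_combination (norm := abel) e + c1 + c2 + t3' - t3 + s3 + t1 - s1 - t2 + s2 - t4 + t5 +
    s4 - s5

/-- **The cyclic relation implies that the values are almost in the nucleus.** -/
theorem nuc_of_cyc
    (h1 : ∀ a b c, V (a * b) c = V a c * b + a * V b c)
    (h2 : ∀ a b c, V a (b * c) = V a b * c + b * V a c)
    (hs : ∀ a b, V b a = -V a b) (N : ℕ)
    (hC : ∀ a b c, N • (com (V a b) c + com (V b c) a + com (V c a) b) = 0) (a b c d : A) :
    N • (3 • asr (V a b) c d) = 0 := by
  have key : (com (V a b) (c * d) + com (V b (c * d)) a + com (V (c * d) a) b) =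
      c * (com (V a b) d + com (V b d) a + com (V d a) b) +
      (com (V a b) c + com (V b c) a + com (V c a) b) * d - 3 • asr (V a b) c d := by
    have k1 : com (V a b) (c * d) = c * com (V a b) d + com (V a b) c * d -
        3 • asr (V a b) c d := by
      rw [com_swap, com_mul_left hA, (asr_cyc hA (V a b) c d).symm, com_swap d, com_swap c,
        mul_neg, neg_mul]
      abel
    have k2 : com (V b c * d) a = V b c * com d a + com (V b c) a * d + 3 • asr (V b c) d a :=
      com_mul_left hA _ _ _
    have k3 : com (c * V b d) a = c * com (V b d) a + com c a * V b d + 3 • asr c (V b d) a :=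
      com_mul_left hA _ _ _
    have k4 : com (V a c * d) b = V a c * com d b + com (V a c) b * d + 3 • asr (V a c) d b :=
      com_mul_left hA _ _ _
    have k5 : com (c * V a d) b = c * com (V a d) b + com c b * V a d + 3 • asr c (V a d) b :=
      com_mul_left hA _ _ _
    have d1 := der_two_ways hA V h1 h2 a b c d
    have d2 := der_two_ways hA V h1 h2 b a c d
    have a3 : asr c (V b d) a = asr (V b d) a c := asr_cyc hA _ _ _
    have a5 : asr c (V a d) b = asr (V a d) b c := asr_cyc hA _ _ _
    have c3 : com c a * V b d = -(com a c * V b d) := by rw [com_swap c a, neg_mul]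
    have c5 : com c b * V a d = -(com b c * V a d) := by rw [com_swap c b, neg_mul]
    have e1 : com (V b (c * d)) a = com (V b c * d) a + com (c * V b d) a := by
      rw [h2, com_add_left]
    have e2 : com (V (c * d) a) b = -(com (V a c * d) b + com (c * V a d) b) := by
      rw [hs a (c * d), h2, com_neg_left, com_add_left]
    have e3 : com (V d a) b = -com (V a d) b := by rw [hs a d, com_neg_left]
    have e4 : com (V c a) b = -com (V a c) b := by rw [hs a c, com_neg_left]
    rw [e1, e2, k1, k2, k3, k4, k5, e3, e4, a3, a5, c3, c5]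
    simp only [succ_nsmul, zero_nsmul, zero_add] at d1 d2 ⊢
    simp only [mul_add, add_mul, mul_neg, neg_mul]
    linear_combination (norm := abel) d2 - d1
  have h := hC a b (c * d)
  rw [key, smul_sub, smul_add, ← mul_smul_comm, ← smul_mul_assoc, hC, hC, mul_zero, zero_mul,
    add_zero, zero_sub, neg_eq_zero] at h
  exact h

end

end MP6489b8
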