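import Mathlib
import Pool.Agent.Lib.MP_6489b8_al.A.Nuc

/-!
# The functions of odd order for residue characteristic three
-/

namespace MP6489b8

universe u

section

variable {A : Type*} [NonUnitalNonAssocRing A] (hA : IsAlt A)
include hA

theorem FF_mul3 (y a b c c' d : A) :
    FF y a b (c * c') d = FF y a b c d * c' + c * FF y a b c' d := by
  rw [FF_sw34 hA, FF_mul hA, FF_sw34 hA y a b d c, FF_sw34 hA y a b d c']
  simp only [neg_mul, mul_neg]; abel

/-- The values of `F` are almost in the nucleus. -/
theorem FF_nuc (y a b c d u v : A) : 24 • asr (FF y a b c d) u v = 0 := by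
  have h := nuc_of_cyc hA (fun c d => FF y a b c d) (fun c c' d => FF_mul3 hA y a b c c' d)
    (fun c d d' => FF_mul hA y a b c d d') (fun c d => FF_sw34 hA y a b d c) 8
    (fun c d e => by
      have h1 := FF_cyc hA y a b c d e
      exact h1) c d u v
  rw [smul_smul] at h
  exact h

end

theorem sixteen {B : Type*} [AddCommGroup B] (w : B) : 16 • w = 8 • (w + w) := by
  rw [← two_nsmul, smul_smul]; norm_num

/-- `16 [F, e]` is a good function of order five over the integers. -/
theorem goodC_K5 : GoodC.{u} 0 5 (brk (scl 16 T4)) := by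
  refine Good.brkZ (m := 2) (good_T4.scl 16) ?_ ?_ ?_
  · intro B _ hB x y
    have h := FF_com_skew hB.1 y (x 0) (x 1) (x 2) (x 3) (x 3)
    have e : com (16 • FF y (x 0) (x 1) (x 2) (x 3)) (x 3) =
        8 • (com (FF y (x 0) (x 1) (x 2) (x 3)) (x 3) + com (FF y (x 0) (x 1) (x 2) (x 3)) (x 3)) := by
      rw [AC.com_nsmul_left]
      exact sixteen _
    exact e.trans h
  · intro B _ hB x y u v
    have h := FF_nuc hB.1 y (x 0) (x 1) (x 2) (x 3) u v
    have e : 3 • asr (16 • FF y (x 0) (x 1) (x 2) (x 3)) u v =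
        2 • (24 • asr (FF y (x 0) (x 1) (x 2) (x 3)) u v) := by
      rw [AC.asr_nsmul_left, smul_smul, smul_smul]
      norm_num
    rw [h, smul_zero] at e
    exact e
  · intro B _ hB x y u
    have h := FF_com hB.1 y (x 0) (x 1) (x 2) (x 3) u
    have e : 3 • com (16 • FF y (x 0) (x 1) (x 2) (x 3)) u =
        2 • (24 • com (FF y (x 0) (x 1) (x 2) (x 3)) u) := by
      rw [AC.com_nsmul_left, smul_smul, smul_smul]
      norm_num
    rw [h, smul_zero] at e
    exact e

/-- The functions of odd order for residue characteristic three. -/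
def TK : ∀ k : ℕ, ∀ (B : Type u) [NonUnitalNonAssocRing B], (Fin (2 * k + 5) → B) → B → B
  | 0 => brk (scl 16 T4)
  | k + 1 => kap (TK k)

theorem goodC_TK (k : ℕ) : GoodC.{u} 0 (2 * k + 5) (TK k) := by
  induction k with
  | zero => exact goodC_K5
  | succ k ih => exact GoodC.kap (m := 2 * k + 4) ih

end MP6489b8
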