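import Mathlib
import Pool.Agent.Lib.MP_6489b8_al.Eval

/-!
# Two superalgebras in characteristic three
-/

namespace MP6489b8

namespace Tab

/-- The part of `check` with first index `i`. -/
def checkRow (N : ℕ) (t : Tab) (i : ℕ) : Bool :=
  (List.range t.d).all fun j =>
    ((t.m i j).all fun x => Nat.blt x.1 t.d && (t.p x.1 == xor (t.p i) (t.p j))) &&
    ((List.range t.d).all fun k =>
      (t.p i || ! Nat.beq i j || (zer N (t.mulR k (t.m i i) ++ scal (-1) (t.mulL i (t.m i k))) &&
        zer N (t.mulR i (t.m k i) ++ scal (-1) (t.mulL k (t.m i i))))) &&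
      zer N (t.mulR k (t.m i j) ++ scal (sg (t.p i) (t.p j)) (t.mulR k (t.m j i)) ++
        scal (-1) (t.mulL i (t.m j k) ++ scal (sg (t.p i) (t.p j)) (t.mulL j (t.m i k)))) &&
      zer N (t.mulR j (t.m k i) ++ scal (sg (t.p i) (t.p j)) (t.mulR i (t.m k j)) ++
        scal (-1) (t.mulL k (t.m i j) ++ scal (sg (t.p i) (t.p j)) (t.mulL k (t.m j i)))))

theorem check_of_rows {N : ℕ} {t : Tab} (h : ∀ i, i < t.d → checkRow N t i = true) :
    check N t = true := by
  unfold check
  rw [List.all_eq_true]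
  intro i hi
  exact h i (List.mem_range.1 hi)

end Tab

/-- The superalgebra of dimension 16 over `ℤ/3`. -/
def M16 : Tab := Tab.ofList 16 [false, true, false, true, false, true, false, true, false, true, false, true, false, true, false, true]
  [[[(0, 1)], [(1, 1)], [(2, 1)], [(3, 1)], [(4, 1)], [(5, 1)], [(6, 1)], [(7, 1)], [(8, 1)],
     [(9, 1)], [(10, 1)], [(11, 1)], [(12, 1)], [(13, 1)], [(14, 1)], [(15, 1)]],
   [[(1, 1)], [(2, 1)], [(3, 1)], [(0, -1), (2, -1)], [(5, 1)], [(6, 1)], [(7, 1)],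
     [(4, -1), (6, 1)], [(9, 1)], [(10, 1)], [(11, 1)], [(8, -1), (10, 1)], [], [(12, -1)],
     [(13, 1), (15, 1)], [(12, 1)]],
   [[(2, 1)], [(1, -1), (3, -1)], [(0, -1), (2, -1)], [(1, 1)], [(4, -1), (6, 1)], [(7, -1)],
     [(4, -1)], [(5, 1), (7, -1)], [(10, -1)], [(9, -1), (11, 1)], [(8, 1), (10, -1)],
     [(9, -1)], [(12, 1)], [(13, -1), (15, 1)], [(14, 1)], [(13, -1)]],
   [[(3, 1)], [(0, 1)], [(1, -1), (3, -1)], [(2, 1)], [(7, -1)], [(4, -1)], [(5, 1), (7, -1)],
     [(6, -1)], [(9, -1), (11, 1)], [(8, 1), (10, -1)], [(9, -1)], [(8, 1)], [(13, 1), (15, 1)],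
     [(12, -1), (14, 1)], [(13, 1), (15, 1)], [(12, 1), (14, -1)]],
   [[(4, 1)], [], [(4, 1)], [(5, -1), (7, -1)], [], [], [], [], [(12, 1)], [(13, 1)],
     [(12, -1), (14, 1)], [(15, 1)], [], [], [], []],
   [[(5, 1)], [(4, 1)], [(7, -1)], [(4, -1), (6, 1)], [], [], [], [], [(13, 1)],
     [(12, 1), (14, 1)], [(13, 1), (15, -1)], [(12, -1), (14, 1)], [], [], [], []],
   [[(6, 1)], [(5, 1), (7, 1)], [(6, 1)], [(5, -1), (7, -1)], [], [], [], [],
     [(12, -1), (14, -1)], [(13, 1), (15, -1)], [(12, 1)], [(13, 1)], [], [], [], []],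
   [[(7, 1)], [(4, -1)], [(5, 1), (7, -1)], [(4, 1), (6, -1)], [], [], [], [],
     [(13, 1), (15, -1)], [(12, -1), (14, 1)], [(15, -1)], [(12, 1)], [], [], [], []],
   [[(8, 1)], [(9, 1)], [(10, -1)], [(9, -1), (11, 1)], [(12, 1)], [(13, 1)],
     [(12, -1), (14, -1)], [(13, 1), (15, -1)], [], [], [], [], [], [], [], []],
   [[(9, 1)], [], [(9, 1)], [(8, -1), (10, -1)], [(13, -1)], [(12, -1), (14, 1)], [(15, -1)],
     [(12, 1), (14, 1)], [], [], [], [], [], [], [], []],
   [[(10, 1)], [(9, -1)], [(8, 1), (10, -1)], [(9, 1), (11, -1)], [(12, -1), (14, -1)],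
     [(13, 1), (15, -1)], [(12, 1), (14, -1)], [(15, -1)], [], [], [], [], [], [], [], []],
   [[(11, 1)], [(8, 1), (10, 1)], [(11, 1)], [(8, -1), (10, -1)], [(13, -1), (15, 1)],
     [(12, 1)], [(13, -1)], [(12, -1), (14, 1)], [], [], [], [], [], [], [], []],
   [[(12, 1)], [(13, -1)], [(12, 1), (14, 1)], [(15, 1)], [], [], [], [], [], [], [], [], [],
     [], [], []],
   [[(13, 1)], [(12, 1), (14, -1)], [(13, -1), (15, 1)], [(12, 1), (14, 1)], [], [], [], [],
     [], [], [], [], [], [], [], []],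
   [[(14, 1)], [(13, 1), (15, 1)], [(14, 1)], [(13, 1), (15, 1)], [], [], [], [], [], [], [],
     [], [], [], [], []],
   [[(15, 1)], [(12, -1)], [(13, -1)], [(12, -1), (14, 1)], [], [], [], [], [], [], [], [], [],
     [], [], []]]

theorem M16_row0 : Tab.checkRow 3 M16 0 = true := by decide +kernel
theorem M16_row1 : Tab.checkRow 3 M16 1 = true := by decide +kernel
theorem M16_row2 : Tab.checkRow 3 M16 2 = true := by decide +kernel
theorem M16_row3 : Tab.checkRow 3 M16 3 = true := by decide +kernel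
theorem M16_row4 : Tab.checkRow 3 M16 4 = true := by decide +kernel
theorem M16_row5 : Tab.checkRow 3 M16 5 = true := by decide +kernel
theorem M16_row6 : Tab.checkRow 3 M16 6 = true := by decide +kernel
theorem M16_row7 : Tab.checkRow 3 M16 7 = true := by decide +kernel
theorem M16_row8 : Tab.checkRow 3 M16 8 = true := by decide +kernel
theorem M16_row9 : Tab.checkRow 3 M16 9 = true := by decide +kernel
theorem M16_row10 : Tab.checkRow 3 M16 10 = true := by decide +kernel
theorem M16_row11 : Tab.checkRow 3 M16 11 = true := by decide +kernel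
theorem M16_row12 : Tab.checkRow 3 M16 12 = true := by decide +kernel
theorem M16_row13 : Tab.checkRow 3 M16 13 = true := by decide +kernel
theorem M16_row14 : Tab.checkRow 3 M16 14 = true := by decide +kernel
theorem M16_row15 : Tab.checkRow 3 M16 15 = true := by decide +kernel

theorem M16_alt : M16.Alt 3 := by
  refine Tab.alt_of_check (Tab.check_of_rows ?_)
  intro i hi
  have hi' : i < 16 := hi
  interval_cases i
  · exact M16_row0
  · exact M16_row1
  · exact M16_row2
  · exact M16_row3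
  · exact M16_row4
  · exact M16_row5
  · exact M16_row6
  · exact M16_row7
  · exact M16_row8
  · exact M16_row9
  · exact M16_row10
  · exact M16_row11
  · exact M16_row12
  · exact M16_row13
  · exact M16_row14
  · exact M16_row15

/-- The superalgebra of dimension 24 over `ℤ/3`. -/
def M24 : Tab := Tab.ofList 24 [false, true, false, true, false, true, true, false, false, false, true, true, false, true, true, false, false, false, true, true, false, false, true, true]
  [[[(0, 1)], [(1, 1)], [(2, 1)], [(3, 1)], [(4, 1)], [(5, 1)], [(6, 1)], [(7, 1)], [(8, 1)],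
     [(9, 1)], [(10, 1)], [(11, 1)], [(12, 1)], [(13, 1)], [(14, 1)], [(15, 1)], [(16, 1)],
     [(17, 1)], [(18, 1)], [(19, 1)], [(20, 1)], [(21, 1)], [(22, 1)], [(23, 1)]],
   [[(1, 1)], [(2, 1)], [(3, 1)], [(0, -1), (2, -1)], [(5, 1)], [(7, 1)], [], [(10, 1)],
     [(5, 1), (6, 1)], [(6, -1)], [(7, 1), (8, -1), (9, 1)], [(4, 1), (8, -1), (9, -1)],
     [(13, 1)], [(15, 1)], [(16, 1)], [(18, 1)], [(18, 1)], [(19, 1)], [(12, -1), (16, 1)], [],
     [(23, -1)], [(22, 1)], [(20, -1), (21, 1)], [(20, -1)]],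
   [[(2, 1)], [(1, -1), (3, -1)], [(0, -1), (2, -1)], [(1, 1)], [(7, 1), (8, -1)],
     [(6, 1), (10, -1)], [(6, 1)], [(8, -1), (9, 1)], [(4, 1), (7, 1), (8, 1), (9, 1)],
     [(4, 1), (8, -1)], [(5, 1), (6, -1), (10, -1)], [(11, 1)], [(15, 1), (16, 1)],
     [(13, -1), (18, 1)], [(13, 1), (14, 1), (18, 1), (19, -1)], [(12, 1), (16, -1)],
     [(12, 1), (15, -1)], [(17, 1)], [(13, -1)], [(19, 1)], [(20, 1)], [(20, -1), (21, 1)],
     [(22, 1), (23, -1)], [(23, 1)]],
   [[(3, 1)], [(0, 1)], [(1, -1), (3, -1)], [(2, 1)], [(10, -1), (11, -1)], [(4, 1), (8, 1)],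
     [(4, 1), (8, -1), (9, -1)], [(5, 1), (6, -1), (10, -1)], [(10, -1), (11, 1)], [(11, 1)],
     [(7, -1)], [], [(13, -1), (18, 1), (19, 1)], [(12, 1), (16, -1)],
     [(12, 1), (16, -1), (17, -1)], [(13, -1)], [(13, -1), (19, 1)], [],
     [(12, 1), (15, 1), (16, -1)], [], [(23, -1)], [(22, 1), (23, 1)], [(21, 1)], [(20, -1)]],
   [[(4, 1)], [(6, 1)], [(8, 1), (9, 1)], [(5, -1), (6, 1), (10, -1), (11, -1)], [], [], [],
     [], [], [], [], [], [(20, 1)], [(22, 1)], [(23, 1)], [(20, 1), (21, -1)],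
     [(20, -1), (21, 1)], [(21, 1)], [(22, -1), (23, 1)], [(23, -1)], [], [], [], []],
   [[(5, 1)], [(8, 1)], [(6, -1), (10, -1), (11, 1)], [(4, -1), (7, 1)], [], [], [], [], [],
     [], [], [], [(23, -1)], [], [(20, 1), (21, 1)], [(22, -1)], [(22, 1), (23, -1)],
     [(22, 1), (23, -1)], [(20, -1)], [(20, 1)], [], [], [], []],
   [[(6, 1)], [(9, 1)], [(6, -1), (11, 1)], [(4, -1), (8, 1), (9, -1)], [], [], [], [], [], [],
     [], [], [(22, 1)], [], [], [(22, -1)], [(22, -1)], [], [(20, -1)], [], [], [], [], []],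
   [[(7, 1)], [(5, 1), (6, -1), (10, 1)], [(7, 1)], [(5, -1), (6, 1), (10, -1)], [], [], [],
     [], [], [], [], [], [(21, 1)], [], [(22, 1), (23, 1)], [], [(21, 1)], [(20, -1), (21, -1)],
     [], [(23, 1)], [], [], [], []],
   [[(8, 1)], [(11, 1)], [(4, 1), (9, -1)], [(5, -1), (6, -1), (10, -1), (11, -1)], [], [], [],
     [], [], [], [], [], [(20, -1), (21, 1)], [(22, -1)], [(22, 1), (23, 1)],
     [(20, 1), (21, 1)], [(20, -1)], [(21, 1)], [(22, 1), (23, -1)], [(23, -1)], [], [], [], []],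
   [[(9, 1)], [(11, 1)], [(4, 1), (8, -1)], [(6, 1), (11, -1)], [], [], [], [], [], [], [], [],
     [(20, 1), (21, -1)], [(22, -1)], [(22, -1)], [(20, 1), (21, 1)], [(20, 1), (21, 1)], [],
     [(22, 1), (23, -1)], [], [], [], [], []],
   [[(10, 1)], [(8, -1), (9, 1)], [(5, 1), (6, -1), (10, -1)], [(7, -1), (8, 1), (9, -1)], [],
     [], [], [], [], [], [], [], [(22, 1), (23, -1)], [], [(21, -1)], [], [(22, 1), (23, -1)],
     [(22, -1)], [], [(20, -1)], [], [], [], []],
   [[(11, 1)], [(4, -1), (8, 1)], [(6, -1)], [(9, -1)], [], [], [], [], [], [], [], [],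
     [(22, -1), (23, -1)], [(20, -1)], [(20, -1)], [(22, 1), (23, 1)], [(22, 1), (23, 1)], [],
     [(20, -1)], [], [], [], [], []],
   [[(12, 1)], [(14, 1)], [(16, -1), (17, 1)], [(13, 1), (14, 1), (18, 1), (19, 1)], [(21, 1)],
     [], [(22, 1)], [(20, 1)], [(20, 1), (21, -1)], [(20, 1), (21, -1)], [(22, 1)],
     [(22, -1), (23, -1)], [], [], [], [], [], [], [], [], [], [], [], []],
   [[(13, 1)], [], [(13, 1)], [(12, -1), (15, 1), (16, 1)], [(22, 1)], [(20, 1), (21, -1)],
     [(20, 1), (21, -1)], [], [(22, -1), (23, 1)], [(22, -1), (23, 1)], [], [(21, 1)], [], [],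
     [], [], [], [], [], [], [], [], [], []],
   [[(14, 1)], [(17, 1)], [(14, 1), (19, -1)], [(12, -1), (16, -1), (17, -1)], [], [(21, 1)],
     [(20, 1), (21, -1)], [(22, 1), (23, -1)], [(22, 1), (23, 1)], [(22, -1), (23, 1)],
     [(21, 1)], [(21, 1)], [], [], [], [], [], [], [], [], [], [], [], []],
   [[(15, 1)], [(13, -1)], [(12, 1), (16, -1)], [(13, 1), (18, -1)], [(20, 1), (21, -1)],
     [(22, -1), (23, -1)], [(22, -1), (23, -1)], [], [(20, 1), (21, 1)], [(20, 1), (21, 1)], [],
     [(22, 1), (23, -1)], [], [], [], [], [], [], [], [], [], [], [], []],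
   [[(16, 1)], [(13, 1), (14, 1)], [(12, 1), (15, 1), (16, 1), (17, 1)],
     [(14, 1), (18, -1), (19, 1)], [(20, 1), (21, -1)], [(22, 1), (23, -1)],
     [(22, -1), (23, -1)], [(20, 1)], [(20, 1), (21, 1)], [(20, 1), (21, 1)], [(22, 1)],
     [(22, 1), (23, -1)], [], [], [], [], [], [], [], [], [], [], [], []],
   [[(17, 1)], [(13, 1), (14, -1), (19, 1)], [(15, 1), (16, -1)], [(13, 1), (14, -1)],
     [(20, 1)], [(22, 1), (23, 1)], [], [(20, 1)], [(20, 1)], [], [(22, -1), (23, -1)], [], [],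
     [], [], [], [], [], [], [], [], [], [], []],
   [[(18, 1)], [(12, 1), (15, -1), (16, -1)], [(18, 1)], [(12, -1), (15, 1), (16, 1)],
     [(22, -1), (23, 1)], [(21, 1)], [(21, 1)], [], [(22, 1), (23, 1)], [(22, 1), (23, 1)], [],
     [(20, -1), (21, -1)], [], [], [], [], [], [], [], [], [], [], [], []],
   [[(19, 1)], [(15, 1), (16, -1), (17, -1)], [(19, 1)], [(15, 1), (16, -1), (17, -1)], [],
     [(20, -1)], [], [], [], [], [(20, 1)], [], [], [], [], [], [], [], [], [], [], [], [], []],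
   [[(20, 1)], [(23, 1)], [(20, 1)], [(23, 1)], [], [], [], [], [], [], [], [], [], [], [], [],
     [], [], [], [], [], [], [], []],
   [[(21, 1)], [(22, 1)], [(20, -1), (21, 1)], [(22, 1), (23, 1)], [], [], [], [], [], [], [],
     [], [], [], [], [], [], [], [], [], [], [], [], []],
   [[(22, 1)], [(20, -1), (21, 1)], [(22, 1), (23, 1)], [(20, 1), (21, 1)], [], [], [], [], [],
     [], [], [], [], [], [], [], [], [], [], [], [], [], [], []],
   [[(23, 1)], [(20, 1)], [(23, 1)], [(20, 1)], [], [], [], [], [], [], [], [], [], [], [], [],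
     [], [], [], [], [], [], [], []]]

theorem M24_row0 : Tab.checkRow 3 M24 0 = true := by decide +kernel
theorem M24_row1 : Tab.checkRow 3 M24 1 = true := by decide +kernel
theorem M24_row2 : Tab.checkRow 3 M24 2 = true := by decide +kernel
theorem M24_row3 : Tab.checkRow 3 M24 3 = true := by decide +kernel
theorem M24_row4 : Tab.checkRow 3 M24 4 = true := by decide +kernel
theorem M24_row5 : Tab.checkRow 3 M24 5 = true := by decide +kernel
theorem M24_row6 : Tab.checkRow 3 M24 6 = true := by decide +kernel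
theorem M24_row7 : Tab.checkRow 3 M24 7 = true := by decide +kernel
theorem M24_row8 : Tab.checkRow 3 M24 8 = true := by decide +kernel
theorem M24_row9 : Tab.checkRow 3 M24 9 = true := by decide +kernel
theorem M24_row10 : Tab.checkRow 3 M24 10 = true := by decide +kernel
theorem M24_row11 : Tab.checkRow 3 M24 11 = true := by decide +kernel
theorem M24_row12 : Tab.checkRow 3 M24 12 = true := by decide +kernel
theorem M24_row13 : Tab.checkRow 3 M24 13 = true := by decide +kernel
theorem M24_row14 : Tab.checkRow 3 M24 14 = true := by decide +kernel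
theorem M24_row15 : Tab.checkRow 3 M24 15 = true := by decide +kernel
theorem M24_row16 : Tab.checkRow 3 M24 16 = true := by decide +kernel
theorem M24_row17 : Tab.checkRow 3 M24 17 = true := by decide +kernel
theorem M24_row18 : Tab.checkRow 3 M24 18 = true := by decide +kernel
theorem M24_row19 : Tab.checkRow 3 M24 19 = true := by decide +kernel
theorem M24_row20 : Tab.checkRow 3 M24 20 = true := by decide +kernel
theorem M24_row21 : Tab.checkRow 3 M24 21 = true := by decide +kernel
theorem M24_row22 : Tab.checkRow 3 M24 22 = true := by decide +kernel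
theorem M24_row23 : Tab.checkRow 3 M24 23 = true := by decide +kernel

theorem M24_alt : M24.Alt 3 := by
  refine Tab.alt_of_check (Tab.check_of_rows ?_)
  intro i hi
  have hi' : i < 24 := hi
  interval_cases i
  · exact M24_row0
  · exact M24_row1
  · exact M24_row2
  · exact M24_row3
  · exact M24_row4
  · exact M24_row5
  · exact M24_row6
  · exact M24_row7
  · exact M24_row8
  · exact M24_row9
  · exact M24_row10
  · exact M24_row11
  · exact M24_row12
  · exact M24_row13
  · exact M24_row14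
  · exact M24_row15
  · exact M24_row16
  · exact M24_row17
  · exact M24_row18
  · exact M24_row19
  · exact M24_row20
  · exact M24_row21
  · exact M24_row22
  · exact M24_row23

end MP6489b8
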