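import Mathlib
import Pool.Agent.Lib.MP_6489b8_al.A.Models3
import Pool.Agent.Lib.MP_6489b8_al.A.EvalX
import Pool.Agent.Lib.MP_6489b8_al.A.KFam

/-!
# Values in characteristic three
-/

namespace MP6489b8

universe u

open Finset Env

section

variable (t : Tab) (K : Type u) [CommRing K]

/-- The letters. -/
noncomputable def xg (i : ℕ) : Env t K := bas t ({i + 1}, 1)

variable {t} (h11 : t.m 1 1 = [(2, 1)]) (hp1 : t.p 1 = true)
include h11 hp1

theorem com_xg {i j : ℕ} (h : i < j) :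
    com (xg t K i) (xg t K j) = (2 : ℤ) • bas t ({i + 1, j + 1}, 2) := by
  have hg : ∀ k : ℕ, good t ({k}, 1) := by
    intro k
    simp [good, hp1]
  have e1 : (xg t K i * xg t K j : Env t K) = bas t ({i + 1, j + 1}, 2) := by
    rw [xg, xg, bas_mul_bas_lt (hg _) (hg _) (by simp [h])]
    rw [h11, vec, vec, one_smul, add_zero]
    rfl
  have e2 : (xg t K j * xg t K i : Env t K) = -bas t ({i + 1, j + 1}, 2) := by
    rw [xg, xg, bas_mul_bas, bmul]
    have hd : Disjoint ({j + 1} : Finset ℕ) {i + 1} := by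
      simp [h.ne']
    rw [if_pos ⟨hg _, hg _, hd⟩]
    have h0 : sgn {j + 1} {i + 1} = -1 := by
      have : inv {j + 1} {i + 1} = 1 := by
        rw [inv, sum_singleton, filter_singleton, if_pos (by omega), card_singleton]
      rw [sgn, this, pow_one]
    rw [h0, h11, vec, vec, one_smul, add_zero, neg_smul, one_smul, union_comm]
    rfl
  rw [com, e1, e2, two_smul, sub_neg_eq_add]

variable (hp2 : t.p 2 = false) {z : ℕ} (hz : t.m z 2 = [(z, 1)])
include hp2 hz

theorem kap_xg {r : ℕ} (T : ∀ (B : Type u) [NonUnitalNonAssocRing B], (Fin r → B) → B → B)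
    (c : ℤ) (y : Env t K) (hg : good t (range (r + 1), z))
    (h : T (Env t K) (fun i => xg t K i.1) y = c • bas t (range (r + 1), z)) :
    kap T (Env t K) (fun i => xg t K i.1) y = (4 * c) • bas t (range (r + 3), z) := by
  change 2 • (T (Env t K) (fun i => xg t K i.1) y * com (xg t K r) (xg t K (r + 1))) = _
  rw [h, com_xg K h11 hp1 (by omega), smul_mul_assoc, mul_smul_comm, bas_mul_bas_lt hg]
  · rw [hz, vec, vec, one_smul, add_zero, ← Nat.cast_smul_eq_nsmul ℤ, smul_smul, smul_smul]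
    have e : range (r + 1) ∪ {r + 1, r + 1 + 1} = range (r + 3) := by
      ext a
      simp only [mem_union, mem_insert, mem_singleton, mem_range]
      omega
    rw [e]
    congr 1
    push_cast
    ring
  · unfold good
    have : ({r + 1, r + 1 + 1} : Finset ℕ).card = 2 := card_pair (by omega)
    simp only [hp2, this]
    rfl
  · intro s hs t ht
    simp only [mem_range, mem_insert, mem_singleton] at hs ht
    omega

end

section

variable (K : Type u) [CommRing K]

/-- The second argument for odd order. -/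
noncomputable def yK : Env M16 K := ev M16 K [((∅, 4), 1), ((∅, 8), 1), (({0}, 1), 1)]

theorem K5_x16 : com (FF (yK K) (xg M16 K 0) (xg M16 K 1) (xg M16 K 2) (xg M16 K 3))
    (xg M16 K 4) = (2 : ℤ) • bas M16 (range 6, 14) := by
  have hx : ∀ i, xg M16 K i = ev M16 K [(({i + 1}, 1), 1)] := fun i => (ev_singleton _).symm
  rw [hx, hx, hx, hx, hx, yK, ← ev_cFF, ← ev_ccom]
  have : ccom M16 (cFF M16 [((∅, 4), 1), ((∅, 8), 1), (({0}, 1), 1)] [(({0 + 1}, 1), 1)]
      [(({1 + 1}, 1), 1)] [(({2 + 1}, 1), 1)] [(({3 + 1}, 1), 1)]) [(({4 + 1}, 1), 1)] =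
      [((range 6, 14), 2)] := by
    decide +kernel
  rw [this, ev, ev, add_zero]

theorem TK_x16 (k : ℕ) : TK k (Env M16 K) (fun i => xg M16 K i.1) (yK K) =
    ((32 * 4 ^ k : ℕ) : ℤ) • bas M16 (range (2 * k + 6), 14) := by
  induction k with
  | zero =>
    change com (16 • FF (yK K) (xg M16 K 0) (xg M16 K 1) (xg M16 K 2) (xg M16 K 3))
      (xg M16 K 4) = _
    rw [AC.com_nsmul_left, K5_x16, ← Nat.cast_smul_eq_nsmul ℤ, smul_smul]
    rfl
  | succ k ih =>
    have h := kap_xg (t := M16) K rfl rfl rfl (z := 14) rfl (TK k) _ (yK K) (by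
      unfold good
      have hp : M16.p 14 = false := rfl
      have : (2 * k + 5 + 1) % 2 = 0 := by omega
      simp [card_range, hp, this]) ih
    have e : (2 * (k + 1) + 6 : ℕ) = 2 * k + 5 + 3 := by ring
    rw [e]
    have e2 : (((32 * 4 ^ (k + 1) : ℕ) : ℤ)) = 4 * ((32 * 4 ^ k : ℕ) : ℤ) := by push_cast; ring
    rw [e2]
    exact h

/-- The second argument for even order. -/
noncomputable def yL : Env M24 K := ev M24 K [((∅, 4), 1), ((∅, 12), 1), (({0}, 1), 1)]

theorem K6_x24 : com (tX (yL K) (xg M24 K 0) (xg M24 K 1) (xg M24 K 2) (xg M24 K 3)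
    (xg M24 K 4)) (xg M24 K 5) = (8 : ℤ) • bas M24 (range 7, 23) := by
  have hx : ∀ i, xg M24 K i = ev M24 K [(({i + 1}, 1), 1)] := fun i => (ev_singleton _).symm
  rw [hx, hx, hx, hx, hx, hx, yL, ← ev_ctX, ← ev_ccom]
  have : ccom M24 (ctX M24 [((∅, 4), 1), ((∅, 12), 1), (({0}, 1), 1)] [(({0 + 1}, 1), 1)]
      [(({1 + 1}, 1), 1)] [(({2 + 1}, 1), 1)] [(({3 + 1}, 1), 1)] [(({4 + 1}, 1), 1)])
      [(({5 + 1}, 1), 1)] = [((range 7, 23), 8)] := by
    decide +kernel
  rw [this, ev, ev, add_zero]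

theorem TKE_x24 (k : ℕ) : TKE k (Env M24 K) (fun i => xg M24 K i.1) (yL K) =
    ((8 * 4 ^ k : ℕ) : ℤ) • bas M24 (range (2 * k + 7), 23) := by
  induction k with
  | zero => exact K6_x24 K
  | succ k ih =>
    have h := kap_xg (t := M24) K rfl rfl rfl (z := 23) rfl (TKE k) _ (yL K) (by
      unfold good
      have hp : M24.p 23 = true := rfl
      have : (2 * k + 6 + 1) % 2 = 1 := by omega
      simp [card_range, hp, this]) ih
    have e : (2 * (k + 1) + 7 : ℕ) = 2 * k + 6 + 3 := by ring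
    rw [e]
    have e2 : (((8 * 4 ^ (k + 1) : ℕ) : ℤ)) = 4 * ((8 * 4 ^ k : ℕ) : ℤ) := by push_cast; ring
    rw [e2]
    exact h

end

/-- Odd order, residue characteristic 3. -/
theorem strictStep_odd_of_three (Φ : Type u) [CommRing Φ] (K : Type u) [Field K] (f : Φ →+* K)
    (h3 : (3 : K) = 0) (k : ℕ) : StrictStep Φ (2 * k + 5) := by
  refine (goodC_TK k).toGood.strictStep_env (by omega) Φ K f M16 (N := 3) h3 M16_alt
    (fun i => xg M16 K i.1) (yK K) ?_
  rw [TK_x16]
  apply zsmul_bas_ne_zero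
  have h2 : (2 : K) ≠ 0 := by
    intro h
    have : (1 : K) = 3 - 2 := by norm_num
    rw [h3, h, sub_zero] at this
    exact one_ne_zero this
  push_cast
  have e : (32 : K) * 4 ^ k = 2 ^ 5 * (2 ^ 2) ^ k := by norm_num
  rw [e]
  exact mul_ne_zero (pow_ne_zero _ h2) (pow_ne_zero _ (pow_ne_zero _ h2))

end MP6489b8
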