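import Mathlib
import Pool.Agent.Lib.MP_6489b8_al.A.Eval3

/-!
# Strict steps for all rings of operators in which 2 is not nilpotent
-/

namespace MP6489b8

universe u

open Env Finset

/-- Order four, whenever `4 ≠ 0`. -/
theorem strictStep_four_of_four (Φ : Type u) [CommRing Φ] (h4 : (4 : Φ) ≠ 0) :
    StrictStep Φ 4 := by
  refine good_T4.strictStep_env (by omega) Φ Φ (RingHom.id Φ) M8 (N := 0) (by simp)
    M8_alt (fun i => x8 Φ i.1) (yE Φ) ?_
  have h : T4 (Env M8 Φ) (fun i => x8 Φ i.1) (yE Φ) =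
      (4 : ℤ) • bas M8 ({0, 1, 3, 4, 5, 6}, 6) := FF_x8 Φ
  rw [h]
  apply zsmul_bas_ne_zero
  push_cast
  exact h4

/-- Even order, if no `3 · 2^s` vanishes. -/
theorem strictStep_even_of_ne (Φ : Type u) [CommRing Φ] (h : ∀ s : ℕ, (3 * 2 ^ s : Φ) ≠ 0)
    (k : ℕ) : StrictStep Φ (2 * k + 4) := by
  refine (goodC_TE k).toGood.strictStep_env (by omega) Φ Φ (RingHom.id Φ) M8 (N := 0) (by simp)
    M8_alt (fun i => x8 Φ i.1) (yE Φ) ?_
  rw [TE_x8]
  apply zsmul_bas_ne_zero
  have h1 := h (5 + 2 * k)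
  push_cast
  have e : (96 : Φ) * 4 ^ k = 3 * 2 ^ (5 + 2 * k) := by
    rw [pow_add, pow_mul]; norm_num; ring
  rw [e]
  exact h1

/-- Even order, if some `3 · 2^s` vanishes. -/
theorem strictStep_even_of_three (Φ : Type u) [CommRing Φ] (K : Type u) [CommRing K] [IsDomain K]
    (f : Φ →+* K) (h2 : (2 : K) ≠ 0) (s : ℕ) (hs : (3 * 2 ^ s : Φ) = 0) (k : ℕ) :
    StrictStep Φ (2 * k + 6) := by
  have h3 : (3 : K) = 0 := by
    have h := congrArg f hs
    rw [map_mul, map_pow, map_zero, map_ofNat, map_ofNat] at h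
    exact (mul_eq_zero.1 h).resolve_right (pow_ne_zero _ h2)
  let _ : Module Φ (Env M24 K) := Module.compHom (Env M24 K) f
  have hsm : ∀ (c : Φ) (a : Env M24 K), c • a = f c • a := fun _ _ => rfl
  have : IsScalarTower Φ (Env M24 K) (Env M24 K) := ⟨fun c a b => by
    rw [hsm, hsm, smul_eq_mul, smul_eq_mul, smul_mul_assoc]⟩
  have : SMulCommClass Φ (Env M24 K) (Env M24 K) := ⟨fun c a b => by
    rw [hsm, hsm, smul_eq_mul, smul_eq_mul, mul_smul_comm]⟩
  refine (goodC_TKE k).toGood.strictStep (by omega) Φ (2 ^ s) ?_ (Env M24 K)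
    (Env.isAlt (N := 3) h3 M24_alt) (fun i => xg M24 K i.1) (yL K) ?_
  · rw [mul_comm]
    exact_mod_cast hs
  · rw [TKE_x24, hsm]
    intro h0
    have h1 := congrArg (coef (range (2 * k + 7), 23)) h0
    have h4 : coef (range (2 * k + 7), 23) (f (2 ^ s) • ((((8 * 4 ^ k : ℕ) : ℤ)) •
        (bas M24 (range (2 * k + 7), 23) : Env M24 K))) = f (2 ^ s) * ((8 * 4 ^ k : ℕ) : K) := by
      rw [smul_comm, map_zsmul]
      have h5 : coef (range (2 * k + 7), 23) (f (2 ^ s) •
          (bas M24 (range (2 * k + 7), 23) : Env M24 K)) = f (2 ^ s) := by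
        change (f (2 ^ s) • (Finsupp.single _ (1 : K) : (Finset ℕ × ℕ) →₀ K)) _ = _
        rw [Finsupp.smul_apply, Finsupp.single_eq_same, smul_eq_mul, mul_one]
      rw [h5, zsmul_eq_mul, mul_comm]
      push_cast
      ring
    rw [h4, map_zero, map_pow, map_ofNat] at h1
    push_cast at h1
    have e : (8 : K) * 4 ^ k = 2 ^ 3 * (2 ^ 2) ^ k := by norm_num
    rw [e] at h1
    exact mul_ne_zero (pow_ne_zero _ h2) (mul_ne_zero (pow_ne_zero _ h2)
      (pow_ne_zero _ (pow_ne_zero _ h2))) h1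

/-- Odd order, for a domain in which `2 ≠ 0`. -/
theorem strictStep_odd_of_domain (Φ : Type u) [CommRing Φ] (K : Type u) [CommRing K] [IsDomain K]
    (f : Φ →+* K) (h2 : (2 : K) ≠ 0) (k : ℕ) : StrictStep Φ (2 * k + 5) := by
  let L := FractionRing K
  let g : Φ →+* L := (algebraMap K L).comp f
  have h2' : (2 : L) ≠ 0 := by
    intro h
    apply h2
    apply IsFractionRing.injective K L
    rw [map_ofNat, h, map_zero]
  by_cases h3 : (3 : L) = 0
  · exact strictStep_odd_of_three Φ L g h3 k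
  · refine strictStep_odd_of_six Φ L g ?_ k
    have e : (6 : L) = 2 * 3 := by norm_num
    rw [e]
    exact mul_ne_zero h2' h3

/-- **If 2 is not nilpotent in the ring of operators then all steps from the fourth on are
strict.** -/
theorem strictStep_of_two_not_nilpotent (Φ : Type u) [CommRing Φ] (h2 : ¬ IsNilpotent (2 : Φ))
    (m : ℕ) (hm : 4 ≤ m) : StrictStep Φ m := by
  obtain ⟨P, hP, hP2⟩ : ∃ P : Ideal Φ, P.IsPrime ∧ (2 : Φ) ∉ P := by
    rw [nilpotent_iff_mem_prime] at h2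
    push Not at h2
    exact h2
  have hK2 : (2 : Φ ⧸ P) ≠ 0 := by
    intro h
    apply hP2
    rw [← Ideal.Quotient.eq_zero_iff_mem, map_ofNat, h]
  rcases Nat.even_or_odd' m with ⟨n, rfl | rfl⟩
  · -- even order
    obtain ⟨k, rfl⟩ : ∃ k, n = k + 2 := ⟨n - 2, by omega⟩
    have e : 2 * (k + 2) = 2 * k + 4 := by ring
    rw [e]
    by_cases h : ∃ s : ℕ, (3 * 2 ^ s : Φ) = 0
    · obtain ⟨s, hs⟩ := h
      cases k with
      | zero =>
        refine strictStep_four_of_four Φ ?_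
        intro h4
        apply h2
        exact ⟨2, by norm_num; exact h4⟩
      | succ k =>
        have e : 2 * (k + 1) + 4 = 2 * k + 6 := by ring
        rw [e]
        exact strictStep_even_of_three Φ (Φ ⧸ P) (Ideal.Quotient.mk P) hK2 s hs k
    · push Not at h
      exact strictStep_even_of_ne Φ h k
  · -- odd order
    obtain ⟨k, rfl⟩ : ∃ k, n = k + 2 := ⟨n - 2, by omega⟩
    have e : 2 * (k + 2) + 1 = 2 * k + 5 := by ring
    rw [e]
    exact strictStep_odd_of_domain Φ (Φ ⧸ P) (Ideal.Quotient.mk P) hK2 k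

end MP6489b8
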